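import Pool.Agent.H239.COL.Null

set_option autoImplicit false

/-! Almost every state in `UU` starts an unbounded solution which exists for all positive or all negative times. -/

namespace Pool.Agent.H239.COL

open Set Filter Topology MeasureTheory Pool.Agent.W821.TB Pool.Agent.Q205.Liou
open Pool.Agent.Q85.UB (prel LM)
open Pool.Agent.H239.PBS

/-- a solution for all times `σ t`, `t ≥ 0`, along which the distance `|X|` grows -/
def Esc (m : Fin 3 → ℝ) (a b c : Fin 3) (σ : ℝ) (z : Ph 3) : Prop :=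
  ∃ y : ℝ → Ph 3, (∀ t, 0 ≤ t → y (σ * t) ∈ phaseSpace m ∧
      HasDerivAt y ((y (σ * t)).2, acc m (y (σ * t)).1) (σ * t)) ∧ y 0 = z ∧
    ∀ t, 0 ≤ t → ‖prel m z.1 a b c‖ ^ 2 + 2 * |inner ℝ (prel m z.1 a b c) (prel m z.2 a b c)| * t ≤
      ‖prel m (y (σ * t)).1 a b c‖ ^ 2 ∧
      20 * ‖(y (σ * t)).1 a - (y (σ * t)).1 b‖ ≤ ‖prel m (y (σ * t)).1 a b c‖

theorem escFwd (m : Fin 3 → ℝ) (hm : ∀ i, 0 < m i) (M : ℝ) (hM : ∑ i, m i = M)
    (a b c : Fin 3) (hab : a ≠ b) (hca : c ≠ a) (hcb : c ≠ b) (z : com m)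
    (hU : (z : Ph 3) ∈ UU m M a b c)
    (hP : 0 < inner ℝ (prel m (z : Ph 3).1 a b c) (prel m (z : Ph 3).2 a b c))
    (h : ∃ η : ℝ, 0 < η ∧ ∃ y : ℝ → com m, Sol (fld m) (free m) (Ioi (-η)) y ∧ y 0 = z) :
    Esc m a b c 1 (z : Ph 3) := by
  obtain ⟨η, hη, y, hy, hy0⟩ := h
  have hsol : ∀ t ∈ Ioi (-η), (y t : Ph 3) ∈ phaseSpace m ∧
      HasDerivAt (fun t => (y t : Ph 3)) ((y t : Ph 3).2, acc m (y t : Ph 3).1) t := by
    intro t ht
    have h := sol_up hy t ht
    exact ⟨h.1, h.2.hasDerivAt (Ioi_mem_nhds ht)⟩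
  refine ⟨fun t => (y t : Ph 3), fun t ht => ?_, by simp only [hy0], fun t ht => ?_⟩
  · rw [one_mul]
    exact hsol t (lt_of_lt_of_le (by linarith : -η < 0) ht)
  · have h1 := (grow m hm M hM hη (T := t + 1) (by linarith) (γ := fun t => (y t : Ph 3))
      (fun s hs => hsol s hs.1) a b c hab hca hcb (by simp only [hy0]; exact hU)
      (by simp only [hy0]; exact hP) t ht (by linarith)).2
    have h2 := (tightI m hm M hM hη (T := t + 1) (by linarith) (γ := fun t => (y t : Ph 3))
      (fun s hs => hsol s hs.1) a b c hab hca hcb (by simp only [hy0]; exact hU)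
      (by simp only [hy0]; exact hP) t ht (by linarith)).2.1
    simp only [hy0] at h1
    rw [one_mul, abs_of_pos hP]
    exact ⟨h1, h2⟩

theorem prel_neg (m : Fin 3 → ℝ) (u : Fin 3 → ℂ) (a b c : Fin 3) : prel m (-u) a b c = -prel m u a b c := by
  unfold prel
  simp only [Pi.neg_apply]
  ring

theorem energy_rev (m : Fin 3 → ℝ) (z : Ph 3) : energy m (z.1, -z.2) = energy m z := by
  unfold energy
  simp only [Pi.neg_apply, norm_neg]

theorem UU_rev (m : Fin 3 → ℝ) (M : ℝ) (a b c : Fin 3) (z : Ph 3) (h : z ∈ UU m M a b c) :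
    (z.1, -z.2) ∈ UU m M a b c := by
  obtain ⟨h0, h1, h2, h3, h4⟩ := h
  refine ⟨h0, ?_, h2, ?_, ?_⟩
  · rw [energy_rev]; exact h1
  · rw [energy_rev]; exact h3
  · rw [energy_rev]
    simp only [prel_neg, norm_neg]
    exact h4

/-- reversal of time -/
theorem esc_rev (m : Fin 3 → ℝ) (a b c : Fin 3) (z : Ph 3) (h : Esc m a b c 1 (z.1, -z.2)) :
    Esc m a b c (-1) z := by
  obtain ⟨y, hy, hy0, hg⟩ := h
  refine ⟨fun t => ((y (-t)).1, -(y (-t)).2), fun t ht => ?_, ?_, fun t ht => ?_⟩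
  · obtain ⟨k1, k2⟩ := hy t ht
    rw [one_mul] at k1 k2
    have e : -(-1 * t) = t := by ring
    simp only [e]
    refine ⟨⟨k1.1, k1.2.1, ?_⟩, ?_⟩
    · simp only [Pi.neg_apply, mul_neg, Finset.sum_neg_distrib, neg_eq_zero]
      exact k1.2.2
    · have h1 : HasDerivAt (fun s : ℝ => -s) (-1) (-1 * t) := hasDerivAt_neg _
      have h2 : HasDerivAt (fun s => y (-s)) ((-1 : ℝ) • ((y t).2, acc m (y t).1)) (-1 * t) := by
        have h3 : HasDerivAt y ((y t).2, acc m (y t).1) (-(-1 * t)) := by rw [e]; exact k2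
        exact h3.scomp (-1 * t) h1
      rw [neg_one_smul] at h2
      have h6 := ((ContinuousLinearMap.fst ℝ (Fin 3 → ℂ) (Fin 3 → ℂ)).prod
        (-(ContinuousLinearMap.snd ℝ (Fin 3 → ℂ) (Fin 3 → ℂ)))).hasFDerivAt.comp_hasDerivAt (-1 * t) h2
      refine h6.congr_deriv ?_
      refine Prod.ext ?_ ?_
      · rfl
      · show -(-fun i => acc m (y t).1 i) = _
        rw [neg_neg]
  · simp only [neg_zero, hy0, neg_neg]
  · have h1 := hg t ht
    have e : -(-1 * t) = 1 * t := by ring
    simp only [prel_neg, inner_neg_right, abs_neg] at h1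
    simp only [e]
    exact h1

/-- the radial velocity of almost every state is not zero -/
theorem aeP (m : Fin 3 → ℝ) (hm : ∀ i, 0 < m i)
    (a b c : Fin 3) (hab : a ≠ b) (hca : c ≠ a) (hcb : c ≠ b) (μ : Measure (com m)) [μ.IsAddHaarMeasure] :
    ∀ᵐ (z : com m) ∂μ, prel m (z : Ph 3).1 a b c ≠ 0 →
      inner ℝ (prel m (z : Ph 3).1 a b c) (prel m (z : Ph 3).2 a b c) ≠ 0 := by
  have cX : Continuous fun z : com m => prel m (z : Ph 3).1 a b c := by
    unfold prel
    fun_prop
  have cV : Continuous fun z : com m => prel m (z : Ph 3).2 a b c := by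
    unfold prel
    fun_prop
  have key : ∀ e : ℂ, ∀ᵐ (z : com m) ∂μ, inner ℝ (prel m (z : Ph 3).1 a b c) e ≠ 0 →
      inner ℝ (prel m (z : Ph 3).1 a b c) (prel m (z : Ph 3).2 a b c) ≠ 0 := by
    intro e
    obtain ⟨u, h1, h2, h3⟩ := c4_surj hm hab hca hcb 0 e
    obtain ⟨w, hw⟩ : ∃ w : com m, (w : Ph 3) = (0, u) :=
      ⟨⟨(0, u), mem_com.2 ⟨by simp, h1⟩⟩, rfl⟩
    have hms : MeasurableSet {z : com m | inner ℝ (prel m (z : Ph 3).1 a b c) e ≠ 0 →
      inner ℝ (prel m (z : Ph 3).1 a b c) (prel m (z : Ph 3).2 a b c) ≠ 0} := by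
      have e1 : {z : com m | inner ℝ (prel m (z : Ph 3).1 a b c) e ≠ 0 →
        inner ℝ (prel m (z : Ph 3).1 a b c) (prel m (z : Ph 3).2 a b c) ≠ 0} =
        {z : com m | inner ℝ (prel m (z : Ph 3).1 a b c) e = 0} ∪
        {z : com m | inner ℝ (prel m (z : Ph 3).1 a b c) (prel m (z : Ph 3).2 a b c) = 0}ᶜ := by
        ext z
        simp only [mem_ofPred_eq, mem_union, mem_compl_iff]
        tauto
      rw [e1]
      exact ((isClosed_eq (cX.inner continuous_const) continuous_const).measurableSet).union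
        ((isClosed_eq (cX.inner cV) continuous_const).measurableSet.compl)
    have h := ae_mem_of_ae_add_linearMap_mem (LinearMap.toSpanSingleton ℝ (com m) w) volume μ hms (by
      intro z
      have hx : ∀ s : ℝ, prel m ((z + (LinearMap.toSpanSingleton ℝ (com m) w) s : com m) : Ph 3).1 a b c =
          prel m (z : Ph 3).1 a b c := by
        intro s
        simp [hw, prel]
      have hv : ∀ s : ℝ, prel m ((z + (LinearMap.toSpanSingleton ℝ (com m) w) s : com m) : Ph 3).2 a b c =
          prel m (z : Ph 3).2 a b c + s • e := by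
        intro s
        have e2 : ((z + (LinearMap.toSpanSingleton ℝ (com m) w) s : com m) : Ph 3).2 =
            (z : Ph 3).2 + s • u := by simp [hw]
        rw [e2, ← h3]
        unfold prel
        simp only [Pi.add_apply, Pi.smul_apply, Complex.real_smul]
        ring
      by_cases hin : inner ℝ (prel m (z : Ph 3).1 a b c) e = 0
      · refine Filter.Eventually.of_forall fun s => ?_
        show inner ℝ (prel m _ a b c) e ≠ 0 → _
        rw [hx s]
        exact fun h => absurd hin h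
      · have hcof : ∀ᵐ s : ℝ, s ≠ -(inner ℝ (prel m (z : Ph 3).1 a b c) (prel m (z : Ph 3).2 a b c)) /
          inner ℝ (prel m (z : Ph 3).1 a b c) e := by
          rw [ae_iff]
          simp
        filter_upwards [hcof] with s hs
        show _ → inner ℝ (prel m _ a b c) (prel m _ a b c) ≠ 0
        intro _
        rw [hx s, hv s, inner_add_right, inner_smul_right]
        intro h
        apply hs
        rw [eq_div_iff hin]
        linarith)
    exact h
  filter_upwards [key 1, key Complex.I] with z h1 hI hX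
  by_contra hcon
  apply hX
  have k1 : inner ℝ (prel m (z : Ph 3).1 a b c) (1 : ℂ) = 0 := by
    by_contra h; exact h1 h hcon
  have k2 : inner ℝ (prel m (z : Ph 3).1 a b c) Complex.I = 0 := by
    by_contra h; exact hI h hcon
  rw [Complex.inner] at k1 k2
  apply Complex.ext
  · simpa using k1
  · simpa using k2

/-- **almost every state in `UU`** -/
theorem aeUU (m : Fin 3 → ℝ) (hm : ∀ i, 0 < m i) (M : ℝ) (hM : ∑ i, m i = M)
    (a b c : Fin 3) (hab : a ≠ b) (hca : c ≠ a) (hcb : c ≠ b) :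
    AlmostEvery m (fun z => z ∈ UU m M a b c →
      inner ℝ (prel m z.1 a b c) (prel m z.2 a b c) ≠ 0 ∧
      (0 < inner ℝ (prel m z.1 a b c) (prel m z.2 a b c) → Esc m a b c 1 z) ∧
      (inner ℝ (prel m z.1 a b c) (prel m z.2 a b c) < 0 → Esc m a b c (-1) z)) := by
  refine almostEvery_of fun μ hμ => ?_
  let RL : com m ≃L[ℝ] com m :=
    (LinearEquiv.ofInvolutive (revL m) (revL_revL m)).toContinuousLinearEquiv
  have hRL : ∀ z, RL z = revL m z := fun z => rfl
  have hH : (Measure.map RL μ).IsAddHaarMeasure := RL.isAddHaarMeasure_map μ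
  have h1 := aeFwd m hm M hM a b c hab hca hcb μ
  have h2 := aeFwd m hm M hM a b c hab hca hcb (Measure.map RL μ)
  have h3 := ae_of_ae_map RL.continuous.measurable.aemeasurable h2
  have h4 := aeP m hm a b c hab hca hcb μ
  filter_upwards [h1, h3, h4] with z k1 k3 k4 hU
  refine ⟨k4 ?_, fun hP => ?_, fun hP => ?_⟩
  · intro h
    have := norm_nonneg ((z : Ph 3).1 a - (z : Ph 3).1 b)
    have := hU.2.2.1
    rw [h, norm_zero] at this
    linarith
  · exact escFwd m hm M hM a b c hab hca hcb z hU hP (k1 hU hP)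
  · refine esc_rev m a b c _ ?_
    have e1 : ((revL m z : com m) : Ph 3) = ((z : Ph 3).1, -(z : Ph 3).2) := rfl
    have hU' := UU_rev m M a b c _ hU
    have hP' : 0 < inner ℝ (prel m ((z : Ph 3).1, -(z : Ph 3).2).1 a b c)
        (prel m ((z : Ph 3).1, -(z : Ph 3).2).2 a b c) := by
      show 0 < inner ℝ (prel m (z : Ph 3).1 a b c) (prel m (-(z : Ph 3).2) a b c)
      rw [prel_neg, inner_neg_right]
      linarith
    rw [← e1] at hU' hP'
    have h := escFwd m hm M hM a b c hab hca hcb (revL m z) hU' hP' (k3 hU' hP')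
    rw [e1] at h
    exact h

end Pool.Agent.H239.COL
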