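import Pool.Graph.R_pool_sql_team_seeded_2aa45f1a.Q205.Liou.Comp
import Pool.Graph.R_pool_sql_team_seeded_2aa45f1a.Q205.Liou.Coord
import Pool.Graph.R_pool_sql_team_seeded_3997aac3.Q85.UB.Kick2

set_option autoImplicit false

namespace Pool.Agent.H239.COL

open Set MeasureTheory Filter Topology Pool.Agent.Q205.Liou Pool.Agent.W821.TB
open Pool.Agent.Q85.UB (prel)

/-- the pair coordinates -/
noncomputable def c4L (m : Fin 3 → ℝ) (a b c : Fin 3) : Ph 3 →ₗ[ℝ] (ℂ × ℂ) × (ℂ × ℂ) where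
  toFun z := ((z.1 a - z.1 b, z.2 a - z.2 b), (prel m z.1 a b c, prel m z.2 a b c))
  map_add' z w := by
    simp only [prel, Prod.fst_add, Prod.snd_add, Pi.add_apply, Prod.mk_add_mk, Prod.mk.injEq]
    refine ⟨⟨by ring, by ring⟩, by ring, by ring⟩
  map_smul' r z := by
    simp only [prel, Prod.smul_fst, Prod.smul_snd, Pi.smul_apply, Prod.smul_mk, Prod.mk.injEq,
      RingHom.id_apply, Complex.real_smul]
    refine ⟨⟨by ring, by ring⟩, by ring, by ring⟩

theorem c4_inj {m : Fin 3 → ℝ} (hm : ∀ i, 0 < m i) {a b c : Fin 3} (hab : a ≠ b) (hca : c ≠ a)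
    (hcb : c ≠ b) {u : Fin 3 → ℂ} (h0 : ∑ i, (m i : ℂ) * u i = 0) (h1 : u a - u b = 0)
    (h2 : prel m u a b c = 0) : u = 0 := by
  have hab0 : (m a : ℂ) + m b ≠ 0 := by
    have := add_pos (hm a) (hm b)
    exact_mod_cast this.ne'
  have hM0 : (m a : ℂ) + m b + m c ≠ 0 := by
    have := add_pos (add_pos (hm a) (hm b)) (hm c)
    exact_mod_cast this.ne'
  rw [Pool.Agent.Q85.UB.sum3 _ a b c hab hca hcb] at h0
  have e1 : u b = u a := (sub_eq_zero.1 h1).symm
  have e2 : u c = u a := by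
    unfold prel at h2
    rw [e1, sub_eq_zero] at h2
    rw [h2]
    field_simp
  rw [e1, e2] at h0
  have e3 : u a = 0 := by
    have : ((m a : ℂ) + m b + m c) * u a = 0 := by linear_combination h0
    exact (mul_eq_zero.1 this).resolve_left hM0
  funext i
  have hi : i ∈ (Finset.univ : Finset (Fin 3)) := Finset.mem_univ i
  rw [Pool.Agent.Q85.UB.univ3 a b c hab hca hcb] at hi
  simp only [Finset.mem_insert, Finset.mem_singleton] at hi
  rcases hi with rfl | rfl | rfl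
  · exact e3
  · rw [e1, e3]; rfl
  · rw [e2, e3]; rfl

theorem c4_surj {m : Fin 3 → ℝ} (hm : ∀ i, 0 < m i) {a b c : Fin 3} (hab : a ≠ b) (hca : c ≠ a)
    (hcb : c ≠ b) (q X : ℂ) : ∃ u : Fin 3 → ℂ, ∑ i, (m i : ℂ) * u i = 0 ∧ u a - u b = q ∧
      prel m u a b c = X := by
  have hab0 : (m a : ℂ) + m b ≠ 0 := by
    have := add_pos (hm a) (hm b)
    exact_mod_cast this.ne'
  have hM0 : (m a : ℂ) + m b + m c ≠ 0 := by
    have := add_pos (add_pos (hm a) (hm b)) (hm c)
    exact_mod_cast this.ne'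
  set ua : ℂ := -(m c / ((m a : ℂ) + m b + m c)) * X + m b / ((m a : ℂ) + m b) * q with hua
  set ub : ℂ := -(m c / ((m a : ℂ) + m b + m c)) * X - m a / ((m a : ℂ) + m b) * q with hub
  set uc : ℂ := ((m a : ℂ) + m b) / ((m a : ℂ) + m b + m c) * X with huc
  refine ⟨Function.update (Function.update (fun _ => uc) b ub) a ua, ?_, ?_, ?_⟩
  all_goals
    have ea : Function.update (Function.update (fun _ : Fin 3 => uc) b ub) a ua a = ua :=
      Function.update_self _ _ _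
    have eb : Function.update (Function.update (fun _ : Fin 3 => uc) b ub) a ua b = ub := by
      rw [Function.update_of_ne hab.symm, Function.update_self]
    have ec : Function.update (Function.update (fun _ : Fin 3 => uc) b ub) a ua c = uc := by
      rw [Function.update_of_ne hca, Function.update_of_ne hcb]
  · rw [Pool.Agent.Q85.UB.sum3 _ a b c hab hca hcb, ea, eb, ec, hua, hub, huc]
    field_simp
    ring
  · rw [ea, eb, hua, hub]
    field_simp
    ring
  · unfold prel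
    rw [ea, eb, ec, hua, hub, huc]
    field_simp
    ring

/-- C4: Haar measure in the coordinates `q_a - q_b`, `v_a - v_b`, `X`, `V` -/
theorem coordMeas (m : Fin 3 → ℝ) (hm : ∀ i, 0 < m i) (a b c : Fin 3) (hab : a ≠ b) (hca : c ≠ a)
    (hcb : c ≠ b) (μ : Measure (com m)) [μ.IsAddHaarMeasure] (R : ℝ) :
    ∃ C : ℝ, 0 ≤ C ∧ ∀ S : Set (ℂ × ℂ),
      μ {z : com m | ((z : Ph 3).1 a - (z : Ph 3).1 b, (z : Ph 3).2 a - (z : Ph 3).2 b) ∈ S ∧
        ‖prel m (z : Ph 3).1 a b c‖ ≤ R ∧ ‖prel m (z : Ph 3).2 a b c‖ ≤ R} ≤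
      ENNReal.ofReal C * volume S := by
  set l : com m →ₗ[ℝ] (ℂ × ℂ) × (ℂ × ℂ) := (c4L m a b c).domRestrict (com m) with hl
  have hval : ∀ z : com m, l z = (((z : Ph 3).1 a - (z : Ph 3).1 b,
      (z : Ph 3).2 a - (z : Ph 3).2 b), (prel m (z : Ph 3).1 a b c, prel m (z : Ph 3).2 a b c)) :=
    fun z => rfl
  have hb : Function.Bijective l := by
    constructor
    · refine (injective_iff_map_eq_zero l).2 fun z hz => ?_
      rw [hval] at hz
      simp only [Prod.mk_eq_zero] at hz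
      have hz0 := mem_com.1 z.2
      refine Subtype.ext (Prod.ext ?_ ?_)
      · exact c4_inj hm hab hca hcb hz0.1 hz.1.1 hz.2.1
      · exact c4_inj hm hab hca hcb hz0.2 hz.1.2 hz.2.2
    · rintro ⟨⟨q, v⟩, ⟨X, V⟩⟩
      obtain ⟨u, h1, h2, h3⟩ := c4_surj hm hab hca hcb q X
      obtain ⟨u', h1', h2', h3'⟩ := c4_surj hm hab hca hcb v V
      refine ⟨⟨(u, u'), mem_com.2 ⟨h1, h1'⟩⟩, ?_⟩
      rw [hval]
      simp only [h2, h3, h2', h3']
  let L : com m ≃L[ℝ] (ℂ × ℂ) × (ℂ × ℂ) := (LinearEquiv.ofBijective l hb).toContinuousLinearEquiv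
  have hL : ∀ z, L z = l z := fun z => rfl
  have hH : (Measure.map L μ).IsAddHaarMeasure := L.isAddHaarMeasure_map μ
  have i1 : (volume : Measure (ℂ × ℂ)).IsAddHaarMeasure := by
    rw [Measure.volume_eq_prod]
    infer_instance
  have i2 : (volume : Measure ((ℂ × ℂ) × (ℂ × ℂ))).IsAddHaarMeasure := by
    rw [Measure.volume_eq_prod]
    exact Measure.prod.instIsAddHaarMeasure _ _
  obtain ⟨κ, heq⟩ : ∃ κ : NNReal, Measure.map L μ =
      κ • (volume : Measure ((ℂ × ℂ) × (ℂ × ℂ))) :=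
    ⟨_, Measure.isAddLeftInvariant_eq_smul _ _⟩
  set B : Set (ℂ × ℂ) := {p | ‖p.1‖ ≤ R ∧ ‖p.2‖ ≤ R} with hB
  have hBfin : volume B ≠ ⊤ := by
    have hsub : B ⊆ Metric.closedBall 0 R := by
      intro p hp
      rw [mem_closedBall_zero_iff, Prod.norm_def]
      exact max_le hp.1 hp.2
    exact ((measure_mono hsub).trans_lt measure_closedBall_lt_top).ne
  have hfin : (κ : ENNReal) * volume B ≠ ⊤ := ENNReal.mul_ne_top ENNReal.coe_ne_top hBfin
  refine ⟨((κ : ENNReal) * volume B).toReal, ENNReal.toReal_nonneg, fun S => ?_⟩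
  rw [ENNReal.ofReal_toReal hfin]
  have hset : {z : com m | ((z : Ph 3).1 a - (z : Ph 3).1 b, (z : Ph 3).2 a - (z : Ph 3).2 b) ∈ S ∧
        ‖prel m (z : Ph 3).1 a b c‖ ≤ R ∧ ‖prel m (z : Ph 3).2 a b c‖ ≤ R} = L ⁻¹' (S ×ˢ B) := by
    ext z
    rw [mem_preimage, hL, hval, mem_prod]
    rfl
  rw [hset]
  refine (Measure.le_map_apply L.continuous.measurable.aemeasurable _).trans ?_
  rw [heq, Measure.smul_apply, Measure.volume_eq_prod, Measure.prod_prod]
  change (κ : ENNReal) * (volume S * volume B) ≤ _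
  rw [mul_comm (volume S), mul_assoc]

end Pool.Agent.H239.COL
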