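import Pool.Agent.H239.PBS.Kick
import Pool.Graph.R_pool_sql_team_seeded_3997aac3.Q85.UB.Ang2
import Pool.Graph.R_pool_sql_team_seeded_3997aac3.Q85.UB.Boot3

set_option autoImplicit false

/-! A three-body solution on a bounded time interval with an escaping third body. -/

namespace Pool.Agent.H239.COL

open Set Filter Topology Pool.Agent.W821.TB
open Pool.Agent.Y516.NW (E3 Cfg Mot)
open Pool.Agent.Q85.UB (io io_norm io_sub io_acc io_en prel sum_acc3 mot_repar LM LM_deriv torque)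
open Pool.Agent.H239.PBS

/-- the mass inequality -/
theorem pairsLe (m : Fin 3 → ℝ) (hm : ∀ i, 0 < m i) (M : ℝ) (hM : ∑ i, m i = M)
    (a b c : Fin 3) (hab : a ≠ b) (hca : c ≠ a) (hcb : c ≠ b) :
    40 * (m a * m b) * (M / (m a + m b)) ≤ 40 * (m a * m b + m b * m c + m c * m a) := by
  have hma := hm a
  have hmb := hm b
  have hmc := hm c
  have hMs : m a + m b + m c = M := by
    rw [← hM, Pool.Agent.Q85.UB.sum3 m a b c hab hca hcb]
  rw [← mul_div_assoc, div_le_iff₀ (by positivity), ← hMs]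
  have h1 : 0 ≤ m c * (m a * m a) + m c * (m b * m b) + m a * m b * m c := by positivity
  nlinarith

/-- the growth of `|X|` and the energy -/
theorem grow (m : Fin 3 → ℝ) (hm : ∀ i, 0 < m i) (M : ℝ) (hM : ∑ i, m i = M)
    {γ : ℝ → Ph 3} {η T : ℝ} (hη : 0 < η) (hT : 0 < T)
    (hsol : ∀ t ∈ Ioo (-η) T, γ t ∈ phaseSpace m ∧ HasDerivAt γ ((γ t).2, acc m (γ t).1) t)
    (a b c : Fin 3) (hab : a ≠ b) (hca : c ≠ a) (hcb : c ≠ b)
    (hU : γ 0 ∈ UU m M a b c)
    (hP : 0 < inner ℝ (prel m (γ 0).1 a b c) (prel m (γ 0).2 a b c)) :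
    ∀ u, 0 ≤ u → u < T → energy m (γ u) = energy m (γ 0) ∧
      ‖prel m (γ 0).1 a b c‖ ^ 2 + 2 * inner ℝ (prel m (γ 0).1 a b c) (prel m (γ 0).2 a b c) * u ≤
        ‖prel m (γ u).1 a b c‖ ^ 2 := by
  obtain ⟨-, h1, h2, h3, h4⟩ := hU
  obtain ⟨lam, hlam⟩ : ∃ lam, lam = M / (m a + m b) := ⟨_, rfl⟩
  obtain ⟨s, τ, hmot, hτ0, hτm, hτs⟩ := mot_repar (m := m) (γ := γ) (α := -η) (T := T) (by linarith) hT
    (fun t ht i j hij => (hsol t ht).1.1 i j hij) (fun t ht => (hsol t ht).2)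
  have hma := hm a
  have hmb := hm b
  have hX0 : 0 < ‖prel m (γ 0).1 a b c‖ := by
    have := norm_nonneg ((γ 0).1 a - (γ 0).1 b)
    linarith
  have hE' : 0 < -energy m (γ 0) := by linarith
  have hy0 : 0 < ‖prel m (γ 0).1 a b c‖ * (-energy m (γ 0)) := by positivity
  have eq : ∀ t, lam • io ((γ (τ t)).1 c) = io (prel m (γ (τ t)).1 a b c) := fun t => by
    rw [prel_eq m hm M hM _ (hsol _ (hτm t)).1.2.1 a b c hab hca hcb lam hlam, map_smul]
  have ev : ∀ t, lam • io ((γ (τ t)).2 c) = io (prel m (γ (τ t)).2 a b c) := fun t => by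
    rw [prel_eq m hm M hM _ (hsol _ (hτm t)).1.2.2 a b c hab hca hcb lam hlam, map_smul]
  have eq0 := eq 0
  have ev0 := ev 0
  rw [hτ0] at eq0 ev0
  have key := Pool.Agent.H239.NBS.escMot m hm M hM (energy m (γ 0)) h1 _ _ _ _ hmot
    (fun t => com_io m _ (hsol _ (hτm t)).1.2.1)
    (fun t => com_io m _ (hsol _ (hτm t)).1.2.2) a b c hab hca hcb lam hlam
    (by
      simp only [hτ0]
      rw [eq0, ev0, io_inner]
      exact hP)
    (by simp only [hτ0]; rw [eq0, io_sub, io_norm]; exact h2)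
    (by
      simp only [hτ0]
      rw [eq0, io_norm, hlam]
      exact (pairsLe m hm M hM a b c hab hca hcb).trans h3.le)
    (by
      simp only [hτ0]
      rw [eq0, ev0, io_norm, io_norm]
      obtain ⟨y, hy⟩ : ∃ y, y = ‖prel m (γ 0).1 a b c‖ * (-energy m (γ 0)) := ⟨_, rfl⟩
      rw [← hy] at h4 hy0 ⊢
      have e2 : 2 * M * (1 + 240 * (m a * m b / y) ^ 2) * y ^ 2 =
        2 * M * (y ^ 2 + 240 * (m a * m b) ^ 2) := by field_simp
      rw [← e2] at h4
      exact lt_of_mul_lt_mul_right h4 (by positivity))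
  intro u hu0 huT
  obtain ⟨t, ht0, htu⟩ := hτs u hu0 huT
  constructor
  · have h := hmot.en t
    rw [io_en, htu] at h
    exact h
  · have h := key t ht0
    simp only [hτ0] at h
    rw [eq0, ev0, eq t, io_norm, io_norm, io_inner, htu] at h
    exact h

theorem contAt {γ : ℝ → Ph 3} {m : Fin 3 → ℝ} {t : ℝ} (h : HasDerivAt γ ((γ t).2, acc m (γ t).1) t) :
    ContinuousAt γ t := h.continuousAt

/-- the pair stays tight -/
theorem tightI (m : Fin 3 → ℝ) (hm : ∀ i, 0 < m i) (M : ℝ) (hM : ∑ i, m i = M)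
    {γ : ℝ → Ph 3} {η T : ℝ} (hη : 0 < η) (hT : 0 < T)
    (hsol : ∀ t ∈ Ioo (-η) T, γ t ∈ phaseSpace m ∧ HasDerivAt γ ((γ t).2, acc m (γ t).1) t)
    (a b c : Fin 3) (hab : a ≠ b) (hca : c ≠ a) (hcb : c ≠ b)
    (hU : γ 0 ∈ UU m M a b c)
    (hP : 0 < inner ℝ (prel m (γ 0).1 a b c) (prel m (γ 0).2 a b c)) :
    ∀ u, 0 ≤ u → u < T → ‖prel m (γ 0).1 a b c‖ ≤ ‖prel m (γ u).1 a b c‖ ∧
      20 * ‖(γ u).1 a - (γ u).1 b‖ ≤ ‖prel m (γ u).1 a b c‖ ∧
      ‖(γ u).1 a - (γ u).1 b‖ ≤ 2 * (m a * m b) / (-energy m (γ 0)) ∧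
      ‖(γ u).2 a - (γ u).2 b‖ ^ 2 * ‖(γ u).1 a - (γ u).1 b‖ ≤ 2 * (m a + m b) := by
  have hg := grow m hm M hM hη hT hsol a b c hab hca hcb hU hP
  obtain ⟨-, h1, h2, h3, h4⟩ := hU
  have hma := hm a
  have hmb := hm b
  have hmc := hm c
  have hE' : 0 < -energy m (γ 0) := by linarith
  have hX0 : 0 < ‖prel m (γ 0).1 a b c‖ := by
    have := norm_nonneg ((γ 0).1 a - (γ 0).1 b)
    linarith
  have hmono : ∀ u, 0 ≤ u → u < T → ‖prel m (γ 0).1 a b c‖ ≤ ‖prel m (γ u).1 a b c‖ := by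
    intro u h0 hu
    have h := (hg u h0 hu).2
    refine le_of_sq_le_sq ?_ (norm_nonneg _)
    have : 0 ≤ 2 * inner ℝ (prel m (γ 0).1 a b c) (prel m (γ 0).2 a b c) * u := by positivity
    linarith
  -- statics
  have hst : ∀ u, 0 ≤ u → u < T → ‖(γ u).1 a - (γ u).1 b‖ ≤ ‖prel m (γ u).1 a b c‖ / 2 →
      20 * ‖(γ u).1 a - (γ u).1 b‖ ≤ ‖prel m (γ u).1 a b c‖ ∧
      ‖(γ u).1 a - (γ u).1 b‖ ≤ 2 * (m a * m b) / (-energy m (γ 0)) ∧
      ‖(γ u).2 a - (γ u).2 b‖ ^ 2 * ‖(γ u).1 a - (γ u).1 b‖ ≤ 2 * (m a + m b) := by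
    intro u h0 hu hr
    have hm1 := hmono u h0 hu
    have hK : 40 * (m a * m b + m b * m c + m c * m a) < ‖prel m (γ u).1 a b c‖ * (-energy m (γ 0)) := by
      have : ‖prel m (γ 0).1 a b c‖ * (-energy m (γ 0)) ≤ ‖prel m (γ u).1 a b c‖ * (-energy m (γ 0)) := by
        gcongr
      linarith
    obtain ⟨k1, k2⟩ := tightP m hm M hM (energy m (γ 0)) h1 (γ u) (hsol u ⟨by linarith, hu⟩).1
      (hg u h0 hu).1 a b c hab hca hcb _ rfl (by linarith) hr (by
        have : 0 < m a * m b + m b * m c + m c * m a := by positivity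
        linarith)
    refine ⟨?_, k1, k2⟩
    have e1 : 20 * ‖(γ u).1 a - (γ u).1 b‖ ≤ 20 * (2 * (m a * m b) / (-energy m (γ 0))) := by gcongr
    refine e1.trans ?_
    rw [← mul_div_assoc, div_le_iff₀ hE']
    have : 0 < m b * m c + m c * m a := by positivity
    linarith
  have hlt : ∀ u, 0 ≤ u → u < T → ‖(γ u).1 a - (γ u).1 b‖ ≤ ‖prel m (γ u).1 a b c‖ / 2 := by
    intro u h0 hu
    by_contra hcon
    push Not at hcon
    have hc : ContinuousOn (fun t => ‖prel m (γ t).1 a b c‖ / 2 - ‖(γ t).1 a - (γ t).1 b‖) (Icc 0 u) := by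
      intro t ht
      have hγ := (hsol t ⟨by linarith [ht.1], by linarith [ht.2]⟩).2.continuousAt
      have hq : ∀ i, ContinuousAt (fun s => (γ s).1 i) t := fun i =>
        (continuous_apply i).continuousAt.comp (continuous_fst.continuousAt.comp hγ)
      refine ContinuousAt.continuousWithinAt ?_
      have hpX : ContinuousAt (fun s => prel m (γ s).1 a b c) t := by
        unfold prel
        exact (hq c).sub (((continuousAt_const.mul (hq a)).add (continuousAt_const.mul (hq b))).div_const _)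
      exact (hpX.norm.div_const 2).sub ((hq a).sub (hq b)).norm
    have h0' : (0:ℝ) ∈ Icc ((fun t => ‖prel m (γ t).1 a b c‖ / 2 - ‖(γ t).1 a - (γ t).1 b‖) u)
        ((fun t => ‖prel m (γ t).1 a b c‖ / 2 - ‖(γ t).1 a - (γ t).1 b‖) 0) := by
      constructor
      · simp only; linarith
      · simp only; linarith
    obtain ⟨t, ht, h⟩ := intermediate_value_Icc' h0 hc h0'
    simp only at h
    obtain ⟨k1, -, -⟩ := hst t ht.1 (by linarith [ht.2]) (by linarith)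
    have := hmono t ht.1 (by linarith [ht.2])
    linarith
  intro u h0 hu
  exact ⟨hmono u h0 hu, hst u h0 hu (hlt u h0 hu)⟩

end Pool.Agent.H239.COL
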