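import Pool.Agent.H239.COL.Dyn
import Pool.Graph.R_pool_sql_team_seeded_2aa45f1a.Q205.Liou.Conf

set_option autoImplicit false

/-! A three-body solution which ends in a binary collision: bounds in terms of the remaining time. -/

namespace Pool.Agent.H239.COL

open Set Filter Topology Pool.Agent.W821.TB Pool.Agent.Q205.Liou
open Pool.Agent.Q85.UB (prel LM LM_deriv torque)
open Pool.Agent.H239.PBS

/-- bounds for the outer body -/
theorem outerI (m : Fin 3 → ℝ) (hm : ∀ i, 0 < m i) (M : ℝ) (hM : ∑ i, m i = M)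
    {γ : ℝ → Ph 3} {η T : ℝ} (hη : 0 < η) (hT : 0 < T)
    (hsol : ∀ t ∈ Ioo (-η) T, γ t ∈ phaseSpace m ∧ HasDerivAt γ ((γ t).2, acc m (γ t).1) t)
    (a b c : Fin 3) (hab : a ≠ b) (hca : c ≠ a) (hcb : c ≠ b)
    (hU : γ 0 ∈ UU m M a b c)
    (hP : 0 < inner ℝ (prel m (γ 0).1 a b c) (prel m (γ 0).2 a b c)) :
    ∀ u, 0 ≤ u → u < T →
      ‖prel m (γ u).2 a b c‖ ≤ ‖prel m (γ 0).2 a b c‖ + 2 * M / ‖prel m (γ 0).1 a b c‖ ^ 2 * T ∧
      ‖prel m (γ u).1 a b c‖ ≤ ‖prel m (γ 0).1 a b c‖ +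
        (‖prel m (γ 0).2 a b c‖ + 2 * M / ‖prel m (γ 0).1 a b c‖ ^ 2 * T) * T := by
  have htt := tightI m hm M hM hη hT hsol a b c hab hca hcb hU hP
  have hM0 : 0 < M := by rw [← hM]; exact Finset.sum_pos (fun i _ => hm i) ⟨0, Finset.mem_univ _⟩
  obtain ⟨X0, hX0⟩ : ∃ X0, X0 = ‖prel m (γ 0).1 a b c‖ := ⟨_, rfl⟩
  obtain ⟨V0, hV0⟩ : ∃ V0, V0 = ‖prel m (γ 0).2 a b c‖ := ⟨_, rfl⟩
  have hX0p : 0 < X0 := by
    have := norm_nonneg ((γ 0).1 a - (γ 0).1 b)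
    have := hU.2.2.1
    rw [hX0]
    linarith
  rw [← hX0] at htt ⊢
  rw [← hV0]
  have hXd : ∀ t ∈ Ioo (-η) T, HasDerivAt (fun s => prel m (γ s).1 a b c) (prel m (γ t).2 a b c) t :=
    fun t ht => prel_deriv m (fun s => (γ s).1) _ t a b c (fun i => fst_deriv (hsol t ht).2 i)
  have hVd : ∀ t ∈ Ioo (-η) T, HasDerivAt (fun s => prel m (γ s).2 a b c)
      (prel m (fun i => acc m (γ t).1 i) a b c) t :=
    fun t ht => prel_deriv m (fun s => (γ s).2) _ t a b c (fun i => snd_deriv (hsol t ht).2 i)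
  have hacc : ∀ t, 0 ≤ t → t < T → ‖prel m (fun i => acc m (γ t).1 i) a b c‖ ≤ 2 * M / X0 ^ 2 := by
    intro t h0 ht
    obtain ⟨h1, h2, -, -⟩ := htt t h0 ht
    obtain ⟨r, hr⟩ : ∃ r, r = ‖(γ t).1 a - (γ t).1 b‖ := ⟨_, rfl⟩
    obtain ⟨X, hX⟩ : ∃ X, X = prel m (γ t).1 a b c := ⟨_, rfl⟩
    have hr0 : 0 ≤ r := by rw [hr]; exact norm_nonneg _
    rw [← hr] at h2
    rw [← hX] at h1 h2
    have hXp : 0 < ‖X‖ := by linarith
    obtain ⟨k1, -⟩ := accP m hm M hM (γ t) (hsol t ⟨by linarith, ht⟩).1 a b c hab hca hcb X _ hX rfl hXp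
      (by rw [← hr]; linarith)
    rw [← hr] at k1
    have e1 : ‖(M / ‖X‖ ^ 3) • X‖ = M / ‖X‖ ^ 2 := by
      rw [norm_smul, Real.norm_of_nonneg (by positivity)]
      field_simp
    have e2 : 10 * M * r ^ 2 / ‖X‖ ^ 4 ≤ M / ‖X‖ ^ 2 := by
      have f1 : (20 * r) ^ 2 ≤ ‖X‖ ^ 2 := pow_le_pow_left₀ (by positivity) h2 2
      have f2 : 10 * r ^ 2 ≤ ‖X‖ ^ 2 := by nlinarith [sq_nonneg r]
      calc 10 * M * r ^ 2 / ‖X‖ ^ 4 = M * (10 * r ^ 2) / ‖X‖ ^ 4 := by ring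
        _ ≤ M * ‖X‖ ^ 2 / ‖X‖ ^ 4 := by gcongr
        _ = _ := by field_simp
    have e3 : ‖prel m (fun i => acc m (γ t).1 i) a b c‖ ≤ 10 * M * r ^ 2 / ‖X‖ ^ 4 + M / ‖X‖ ^ 2 := by
      have := norm_sub_le (prel m (fun i => acc m (γ t).1 i) a b c + (M / ‖X‖ ^ 3) • X) ((M / ‖X‖ ^ 3) • X)
      rw [add_sub_cancel_right, e1] at this
      linarith
    have e4 : M / ‖X‖ ^ 2 ≤ M / X0 ^ 2 := by gcongr
    calc _ ≤ 10 * M * r ^ 2 / ‖X‖ ^ 4 + M / ‖X‖ ^ 2 := e3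
      _ ≤ M / X0 ^ 2 + M / X0 ^ 2 := by linarith
      _ = _ := by ring
  have hVb : ∀ u, 0 ≤ u → u < T → ‖prel m (γ u).2 a b c‖ ≤ V0 + 2 * M / X0 ^ 2 * T := by
    intro u h0 hu
    have h1 := Convex.norm_image_sub_le_of_norm_hasDerivWithin_le (f := fun s => prel m (γ s).2 a b c)
      (f' := fun t => prel m (fun i => acc m (γ t).1 i) a b c) (C := 2 * M / X0 ^ 2) (s := Icc 0 u)
      (fun t ht => (hVd t ⟨by linarith [ht.1], by linarith [ht.2]⟩).hasDerivWithinAt)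
      (fun t ht => hacc t ht.1 (by linarith [ht.2])) (convex_Icc 0 u) (x := 0) (y := u)
      ⟨le_rfl, h0⟩ ⟨h0, le_rfl⟩
    rw [sub_zero, Real.norm_of_nonneg h0] at h1
    have h2 := norm_sub_norm_le (prel m (γ u).2 a b c) (prel m (γ 0).2 a b c)
    have h3 : 2 * M / X0 ^ 2 * u ≤ 2 * M / X0 ^ 2 * T := by gcongr
    rw [← hV0] at h2
    linarith
  intro u h0 hu
  refine ⟨hVb u h0 hu, ?_⟩
  have h1 := Convex.norm_image_sub_le_of_norm_hasDerivWithin_le (f := fun s => prel m (γ s).1 a b c)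
    (f' := fun t => prel m (γ t).2 a b c) (C := V0 + 2 * M / X0 ^ 2 * T) (s := Icc 0 u)
    (fun t ht => (hXd t ⟨by linarith [ht.1], by linarith [ht.2]⟩).hasDerivWithinAt)
    (fun t ht => hVb t ht.1 (by linarith [ht.2])) (convex_Icc 0 u) (x := 0) (y := u)
    ⟨le_rfl, h0⟩ ⟨h0, le_rfl⟩
  rw [sub_zero, Real.norm_of_nonneg h0] at h1
  have h2 := norm_sub_norm_le (prel m (γ u).1 a b c) (prel m (γ 0).1 a b c)
  have hV0n : 0 ≤ V0 := by rw [hV0]; exact norm_nonneg _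
  have h3 : (V0 + 2 * M / X0 ^ 2 * T) * u ≤ (V0 + 2 * M / X0 ^ 2 * T) * T := by gcongr
  rw [← hX0] at h2
  linarith

/-- the pair comes close to a collision -/
theorem close (m : Fin 3 → ℝ) (hm : ∀ i, 0 < m i) (M : ℝ) (hM : ∑ i, m i = M)
    {y : ℝ → com m} {η T : ℝ} (hη : 0 < η) (hT : 0 < T)
    (hy : Sol (fld m) (free m) (Ioo (-η) T) y)
    (hex : ∀ N : Set (com m), IsCompact N → N ⊆ free m → ∀ s, s < T → ∃ t, s ≤ t ∧ 0 ≤ t ∧ t < T ∧ y t ∉ N)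
    (a b c : Fin 3) (hab : a ≠ b) (hca : c ≠ a) (hcb : c ≠ b)
    (hU : (y 0 : Ph 3) ∈ UU m M a b c)
    (hP : 0 < inner ℝ (prel m (y 0 : Ph 3).1 a b c) (prel m (y 0 : Ph 3).2 a b c))
    (ε : ℝ) (hε : 0 < ε) (s : ℝ) (hs : s < T) :
    ∃ t, s ≤ t ∧ 0 ≤ t ∧ t < T ∧ ‖(y t : Ph 3).1 a - (y t : Ph 3).1 b‖ < ε := by
  obtain ⟨γ, hγ⟩ : ∃ γ : ℝ → Ph 3, γ = fun t => (y t : Ph 3) := ⟨_, rfl⟩
  have hγt : ∀ t, (y t : Ph 3) = γ t := fun t => by rw [hγ]
  have hsol : ∀ t ∈ Ioo (-η) T, γ t ∈ phaseSpace m ∧ HasDerivAt γ ((γ t).2, acc m (γ t).1) t := by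
    intro t ht
    have h := sol_up hy t ht
    rw [hγ]
    exact ⟨h.1, h.2.hasDerivAt (Ioo_mem_nhds ht.1 ht.2)⟩
  simp only [hγt] at hU hP ⊢
  have hg := grow m hm M hM hη hT hsol a b c hab hca hcb hU hP
  have htt := tightI m hm M hM hη hT hsol a b c hab hca hcb hU hP
  have hou := outerI m hm M hM hη hT hsol a b c hab hca hcb hU hP
  by_contra hcon
  push Not at hcon
  have hX0p : 0 < ‖prel m (γ 0).1 a b c‖ := by
    have := norm_nonneg ((γ 0).1 a - (γ 0).1 b)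
    have := hU.2.2.1
    linarith
  obtain ⟨Rx, hRx⟩ : ∃ Rx, Rx = ‖prel m (γ 0).1 a b c‖ +
        (‖prel m (γ 0).2 a b c‖ + 2 * M / ‖prel m (γ 0).1 a b c‖ ^ 2 * T) * T := ⟨_, rfl⟩
  obtain ⟨δ, hδ⟩ : ∃ δ, δ = min ε (‖prel m (γ 0).1 a b c‖ / 2) := ⟨_, rfl⟩
  have hδ0 : 0 < δ := by rw [hδ]; exact lt_min hε (by positivity)
  -- the distances
  have hdist : ∀ t, s ≤ t → 0 ≤ t → t < T → ∀ i j, i ≠ j → δ ≤ ‖(γ t).1 i - (γ t).1 j‖ ∧
      ‖(γ t).1 i - (γ t).1 j‖ ≤ 3 / 2 * Rx := by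
    intro t hst h0 ht i j hij
    obtain ⟨h1, h2, -, -⟩ := htt t h0 ht
    have h3 := hcon t hst h0 ht
    have hma := hm a
    have hmb := hm b
    have hlt : ‖(γ t).1 a - (γ t).1 b‖ < ‖prel m (γ t).1 a b c‖ / 2 := by
      have : 0 < ‖prel m (γ t).1 a b c‖ := by linarith
      have := norm_nonneg ((γ t).1 a - (γ t).1 b)
      linarith
    refine ⟨?_, ?_⟩
    swap
    · have h4 := distLe m hm (γ t).1 a b c hab hca hcb hlt i j
      have h5 := (hou t h0 ht).2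
      rw [← hRx] at h5
      linarith
    have hsc : ((m a : ℂ) + (m b : ℂ)) ≠ 0 := by
      rw [← Complex.ofReal_add]
      exact Complex.ofReal_ne_zero.mpr (by positivity)
    have e1 : prel m (γ t).1 a b c = (γ t).1 c - (γ t).1 a +
        ((m b / (m a + m b) : ℝ) : ℂ) * ((γ t).1 a - (γ t).1 b) := by
      unfold prel
      push_cast
      field_simp
      ring
    have e2 : prel m (γ t).1 a b c = (γ t).1 c - (γ t).1 b -
        ((m a / (m a + m b) : ℝ) : ℂ) * ((γ t).1 a - (γ t).1 b) := by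
      unfold prel
      push_cast
      field_simp
      ring
    have n1 : ‖((m b / (m a + m b) : ℝ) : ℂ) * ((γ t).1 a - (γ t).1 b)‖ ≤ ‖(γ t).1 a - (γ t).1 b‖ := by
      rw [norm_mul, Complex.norm_real, Real.norm_of_nonneg (by positivity)]
      refine mul_le_of_le_one_left (norm_nonneg _) ?_
      rw [div_le_one (by positivity)]; linarith
    have n2 : ‖((m a / (m a + m b) : ℝ) : ℂ) * ((γ t).1 a - (γ t).1 b)‖ ≤ ‖(γ t).1 a - (γ t).1 b‖ := by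
      rw [norm_mul, Complex.norm_real, Real.norm_of_nonneg (by positivity)]
      refine mul_le_of_le_one_left (norm_nonneg _) ?_
      rw [div_le_one (by positivity)]; linarith
    have g1 : ‖prel m (γ 0).1 a b c‖ / 2 ≤ ‖(γ t).1 c - (γ t).1 a‖ := by
      have f1 : ‖prel m (γ t).1 a b c‖ ≤ ‖(γ t).1 c - (γ t).1 a‖ +
          ‖((m b / (m a + m b) : ℝ) : ℂ) * ((γ t).1 a - (γ t).1 b)‖ := by
        nth_rewrite 1 [e1]; exact norm_add_le _ _
      linarith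
    have g2 : ‖prel m (γ 0).1 a b c‖ / 2 ≤ ‖(γ t).1 c - (γ t).1 b‖ := by
      have f1 : ‖prel m (γ t).1 a b c‖ ≤ ‖(γ t).1 c - (γ t).1 b‖ +
          ‖((m a / (m a + m b) : ℝ) : ℂ) * ((γ t).1 a - (γ t).1 b)‖ := by
        nth_rewrite 1 [e2]; exact norm_sub_le _ _
      linarith
    have d1 : δ ≤ ‖(γ t).1 a - (γ t).1 b‖ := by rw [hδ]; exact (min_le_left _ _).trans h3
    have d2 : δ ≤ ‖(γ t).1 c - (γ t).1 a‖ := by rw [hδ]; exact (min_le_right _ _).trans g1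
    have d3 : δ ≤ ‖(γ t).1 c - (γ t).1 b‖ := by rw [hδ]; exact (min_le_right _ _).trans g2
    have hi := Pool.Agent.Q130.NX.fin3 a b c hab hca hcb i
    have hj := Pool.Agent.Q130.NX.fin3 a b c hab hca hcb j
    rcases hi with rfl | rfl | rfl <;> rcases hj with rfl | rfl | rfl
    · exact absurd rfl hij
    · exact d1
    · rw [norm_sub_rev]; exact d2
    · rw [norm_sub_rev]; exact d1
    · exact absurd rfl hij
    · rw [norm_sub_rev]; exact d3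
    · exact d2
    · exact d3
    · exact absurd rfl hij
  obtain ⟨V, hV⟩ : ∃ V : Fin 3 → ℝ, V = fun i =>
    Real.sqrt (2 * (energy m (γ 0) + (∑ a, ∑ b, m a * m b / δ) / 2) / m i) := ⟨_, rfl⟩
  obtain ⟨K, hK⟩ : ∃ K : Set (Ph 3), K = {w | ∀ a b, a ≠ b → δ ≤ ‖w.1 a - w.1 b‖} ∩
    ((Set.univ.pi fun _ => Metric.closedBall 0 (max (3 / 2 * Rx) 0)) ×ˢ
      (Set.univ.pi fun a => Metric.closedBall 0 (V a))) := ⟨_, rfl⟩
  have hcl : IsClosed {w : Ph 3 | ∀ a b, a ≠ b → δ ≤ ‖w.1 a - w.1 b‖} := by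
    simp only [Set.ofPred_forall]
    refine isClosed_iInter fun a => isClosed_iInter fun b => isClosed_iInter fun _ => ?_
    exact isClosed_le continuous_const (by fun_prop)
  have hKc : IsCompact K := by
    rw [hK]
    exact ((isCompact_univ_pi fun _ => isCompact_closedBall _ _).prod
      (isCompact_univ_pi fun _ => isCompact_closedBall _ _)).inter_left hcl
  have hcom : IsClosed ((com m : Submodule ℝ (Ph 3)) : Set (Ph 3)) :=
    Submodule.closed_of_finiteDimensional _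
  obtain ⟨t, h1, h2, h3, h4⟩ := hex ((fun z : com m => (z : Ph 3)) ⁻¹' K)
    (hcom.isClosedEmbedding_subtypeVal.isCompact_preimage hKc) (by
      intro w hw a b hab h
      rw [hK] at hw
      have := hw.1 a b hab
      rw [h, sub_self, norm_zero] at this
      exact absurd this (not_le.2 hδ0)) s hs
  apply h4
  show (y t : Ph 3) ∈ K
  rw [hγt t, hK]
  refine ⟨fun i j hij => (hdist t h1 h2 h3 i j hij).1, ?_, ?_⟩
  · intro i _
    rw [mem_closedBall_zero_iff]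
    exact pos_bound hm (hsol t ⟨by linarith, h3⟩).1.2 (fun i j hij => (hdist t h1 h2 h3 i j hij).2) i
  · intro i _
    rw [mem_closedBall_zero_iff]
    have := vel_bound hm hδ0 (fun i j hij => (hdist t h1 h2 h3 i j hij).1) i (w := γ t)
    rw [(hg t h2 h3).1] at this
    rw [hV]
    exact this

end Pool.Agent.H239.COL
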