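import Pool.Agent.H239.COL.Dyn2

set_option autoImplicit false

/-! The angular momentum of a pair which collides at the time `T` is of the order `(T - s)²` before. -/

namespace Pool.Agent.H239.COL

open Set Filter Topology Pool.Agent.W821.TB Pool.Agent.Q205.Liou
open Pool.Agent.Q85.UB (prel LM LM_deriv torque)
open Pool.Agent.H239.PBS

/-- the distances to the outer body -/
theorem farC (m : Fin 3 → ℝ) (hm : ∀ i, 0 < m i) (q : Fin 3 → ℂ) (a b c : Fin 3) (X0 : ℝ)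
    (h1 : X0 ≤ ‖prel m q a b c‖) (h2 : 20 * ‖q a - q b‖ ≤ ‖prel m q a b c‖) :
    X0 / 2 ≤ ‖q c - q a‖ ∧ X0 / 2 ≤ ‖q c - q b‖ := by
  have hma := hm a
  have hmb := hm b
  have hsc : ((m a : ℂ) + (m b : ℂ)) ≠ 0 := by
    rw [← Complex.ofReal_add]
    exact Complex.ofReal_ne_zero.mpr (by positivity)
  have e1 : prel m q a b c = q c - q a + ((m b / (m a + m b) : ℝ) : ℂ) * (q a - q b) := by
    unfold prel
    push_cast
    field_simp
    ring
  have e2 : prel m q a b c = q c - q b - ((m a / (m a + m b) : ℝ) : ℂ) * (q a - q b) := by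
    unfold prel
    push_cast
    field_simp
    ring
  have n1 : ‖((m b / (m a + m b) : ℝ) : ℂ) * (q a - q b)‖ ≤ ‖q a - q b‖ := by
    rw [norm_mul, Complex.norm_real, Real.norm_of_nonneg (by positivity)]
    refine mul_le_of_le_one_left (norm_nonneg _) ?_
    rw [div_le_one (by positivity)]; linarith
  have n2 : ‖((m a / (m a + m b) : ℝ) : ℂ) * (q a - q b)‖ ≤ ‖q a - q b‖ := by
    rw [norm_mul, Complex.norm_real, Real.norm_of_nonneg (by positivity)]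
    refine mul_le_of_le_one_left (norm_nonneg _) ?_
    rw [div_le_one (by positivity)]; linarith
  have hn := norm_nonneg (q a - q b)
  constructor
  · have f1 : ‖prel m q a b c‖ ≤ ‖q c - q a‖ + ‖((m b / (m a + m b) : ℝ) : ℂ) * (q a - q b)‖ := by
      nth_rewrite 1 [e1]; exact norm_add_le _ _
    linarith
  · have f1 : ‖prel m q a b c‖ ≤ ‖q c - q b‖ + ‖((m a / (m a + m b) : ℝ) : ℂ) * (q a - q b)‖ := by
      nth_rewrite 1 [e2]; exact norm_sub_le _ _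
    linarith

theorem angI (m : Fin 3 → ℝ) (hm : ∀ i, 0 < m i) (M : ℝ) (hM : ∑ i, m i = M)
    {y : ℝ → com m} {η T : ℝ} (hη : 0 < η) (hT : 0 < T)
    (hy : Sol (fld m) (free m) (Ioo (-η) T) y)
    (hex : ∀ N : Set (com m), IsCompact N → N ⊆ free m → ∀ s, s < T → ∃ t, s ≤ t ∧ 0 ≤ t ∧ t < T ∧ y t ∉ N)
    (a b c : Fin 3) (hab : a ≠ b) (hca : c ≠ a) (hcb : c ≠ b)
    (hU : (y 0 : Ph 3) ∈ UU m M a b c)
    (hP : 0 < inner ℝ (prel m (y 0 : Ph 3).1 a b c) (prel m (y 0 : Ph 3).2 a b c))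
    (D : ℝ) (hD : 0 ≤ D) (hD2 : 4 * (2 * (m a * m b) / (-energy m (y 0 : Ph 3))) * (2 * (m a + m b)) ≤ D ^ 2) :
    ∀ s, 0 ≤ s → s < T → |LM (y s : Ph 3) a b| ≤
      4 * m c * (D * (T - s)) / (‖prel m (y 0 : Ph 3).1 a b c‖ / 2) ^ 3 * (T - s) := by
  have hcl := close m hm M hM hη hT hy hex a b c hab hca hcb hU hP
  obtain ⟨γ, hγ⟩ : ∃ γ : ℝ → Ph 3, γ = fun t => (y t : Ph 3) := ⟨_, rfl⟩
  have hγt : ∀ t, (y t : Ph 3) = γ t := fun t => by rw [hγ]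
  have hsol : ∀ t ∈ Ioo (-η) T, γ t ∈ phaseSpace m ∧ HasDerivAt γ ((γ t).2, acc m (γ t).1) t := by
    intro t ht
    have h := sol_up hy t ht
    rw [hγ]
    exact ⟨h.1, h.2.hasDerivAt (Ioo_mem_nhds ht.1 ht.2)⟩
  simp only [hγt] at hU hP hcl hD2 ⊢
  have htt := tightI m hm M hM hη hT hsol a b c hab hca hcb hU hP
  have hma := hm a
  have hmb := hm b
  have hmc := hm c
  have hE' : 0 < -energy m (γ 0) := by linarith [hU.2.1]
  obtain ⟨X0, hX0⟩ : ∃ X0, X0 = ‖prel m (γ 0).1 a b c‖ := ⟨_, rfl⟩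
  have hX0p : 0 < X0 := by
    have := norm_nonneg ((γ 0).1 a - (γ 0).1 b)
    have := hU.2.2.1
    rw [hX0]
    linarith
  obtain ⟨c0, hc0⟩ : ∃ c0, c0 = 2 * (m a * m b) / (-energy m (γ 0)) := ⟨_, rfl⟩
  have hc0p : 0 < c0 := by rw [hc0]; positivity
  obtain ⟨κ, hκ⟩ : ∃ κ, κ = 2 * (m a + m b) := ⟨_, rfl⟩
  have hκp : 0 < κ := by rw [hκ]; positivity
  rw [← hX0, ← hc0, ← hκ] at htt
  rw [← hc0, ← hκ] at hD2
  rw [← hX0]
  -- the square of the distance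
  have hqd : ∀ t ∈ Ioo (-η) T, HasDerivAt (fun s => ‖(γ s).1 a - (γ s).1 b‖ ^ 2)
      (2 * inner ℝ ((γ t).1 a - (γ t).1 b) ((γ t).2 a - (γ t).2 b)) t := by
    intro t ht
    have h1 : HasDerivAt (fun s => (γ s).1 a - (γ s).1 b) ((γ t).2 a - (γ t).2 b) t :=
      (fst_deriv (hsol t ht).2 a).sub (fst_deriv (hsol t ht).2 b)
    exact h1.norm_sq
  have hqv : ∀ t, 0 ≤ t → t < T → ‖2 * inner ℝ ((γ t).1 a - (γ t).1 b) ((γ t).2 a - (γ t).2 b)‖ ≤ D := by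
    intro t h0 ht
    obtain ⟨-, -, k1, k2⟩ := htt t h0 ht
    obtain ⟨r, hr⟩ : ∃ r, r = ‖(γ t).1 a - (γ t).1 b‖ := ⟨_, rfl⟩
    obtain ⟨v, hv⟩ : ∃ v, v = ‖(γ t).2 a - (γ t).2 b‖ := ⟨_, rfl⟩
    have hr0 : 0 ≤ r := by rw [hr]; exact norm_nonneg _
    have hv0 : 0 ≤ v := by rw [hv]; exact norm_nonneg _
    have h1 := abs_real_inner_le_norm ((γ t).1 a - (γ t).1 b) ((γ t).2 a - (γ t).2 b)
    rw [← hr, ← hv] at h1 k2
    rw [← hr] at k1
    rw [Real.norm_eq_abs, abs_mul, abs_two]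
    have h2 : (2 * (r * v)) ^ 2 ≤ D ^ 2 := by
      calc (2 * (r * v)) ^ 2 = 4 * r * (v ^ 2 * r) := by ring
        _ ≤ 4 * c0 * κ := by gcongr
        _ ≤ D ^ 2 := hD2
    have h3 : 2 * (r * v) ≤ D := le_of_sq_le_sq h2 hD
    linarith
  have hrr : ∀ s t, 0 ≤ s → s ≤ t → t < T → ‖(γ s).1 a - (γ s).1 b‖ ^ 2 ≤
      ‖(γ t).1 a - (γ t).1 b‖ ^ 2 + D * (t - s) := by
    intro s t h0 hst ht
    have h1 := Convex.norm_image_sub_le_of_norm_hasDerivWithin_le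
      (f := fun s => ‖(γ s).1 a - (γ s).1 b‖ ^ 2)
      (f' := fun t => 2 * inner ℝ ((γ t).1 a - (γ t).1 b) ((γ t).2 a - (γ t).2 b)) (C := D) (s := Icc s t)
      (fun u hu => (hqd u ⟨by linarith [hu.1], by linarith [hu.2]⟩).hasDerivWithinAt)
      (fun u hu => hqv u (by linarith [hu.1]) (by linarith [hu.2])) (convex_Icc s t) (x := s) (y := t)
      ⟨le_rfl, hst⟩ ⟨hst, le_rfl⟩
    rw [Real.norm_of_nonneg (by linarith : (0:ℝ) ≤ t - s), Real.norm_eq_abs] at h1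
    have h2 := (abs_le.1 h1).1
    linarith
  have hr2 : ∀ s, 0 ≤ s → s < T → ‖(γ s).1 a - (γ s).1 b‖ ^ 2 ≤ D * (T - s) := by
    intro s h0 hs
    refine le_of_forall_pos_le_add fun ε hε => ?_
    obtain ⟨t, h1, h2, h3, h4⟩ := hcl (Real.sqrt ε) (Real.sqrt_pos.2 hε) s hs
    have h5 := hrr s t h0 h1 h3
    have h6 : ‖(γ t).1 a - (γ t).1 b‖ ^ 2 ≤ ε := by
      have := pow_le_pow_left₀ (norm_nonneg _) h4.le 2
      rwa [Real.sq_sqrt hε.le] at this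
    have h7 : D * (t - s) ≤ D * (T - s) := by gcongr
    linarith
  intro s h0 hs
  have hTs : 0 < T - s := by linarith
  obtain ⟨R, hR⟩ : ∃ R, R = Real.sqrt (D * (T - s)) := ⟨_, rfl⟩
  have hR2 : R ^ 2 = D * (T - s) := by rw [hR, Real.sq_sqrt (by positivity)]
  have hR0 : 0 ≤ R := by rw [hR]; exact Real.sqrt_nonneg _
  have hLb : ∀ t, s ≤ t → t < T → |LM (γ s) a b| ≤ |LM (γ t) a b| +
      4 * m c * (D * (T - s)) / (X0 / 2) ^ 3 * (T - s) := by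
    intro t hst ht
    have h1 := Convex.norm_image_sub_le_of_norm_hasDerivWithin_le (f := fun s => LM (γ s) a b)
      (f' := fun t => m c * ((starRingEnd ℂ) ((γ t).1 b - (γ t).1 a) *
      (((1 / ‖(γ t).1 c - (γ t).1 b‖ ^ 3 : ℝ) : ℂ) * ((γ t).1 c - (γ t).1 b) -
        ((1 / ‖(γ t).1 c - (γ t).1 a‖ ^ 3 : ℝ) : ℂ) * ((γ t).1 c - (γ t).1 a))).im)
      (C := 4 * m c * R ^ 2 / (X0 / 2) ^ 3) (s := Icc s t)
      (fun u hu => (LM_deriv (hsol u ⟨by linarith [hu.1], by linarith [hu.2]⟩).2 a b c hab hca hcb).hasDerivWithinAt)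
      (fun u hu => by
        have hu0 : 0 ≤ u := by linarith [hu.1]
        have huT : u < T := by linarith [hu.2]
        obtain ⟨k1, k2, -, -⟩ := htt u hu0 huT
        obtain ⟨k3, k4⟩ := farC m hm (γ u).1 a b c X0 k1 k2
        rw [Real.norm_eq_abs]
        refine torque hm (γ u) a b c (X0 / 2) R (by positivity) k3 k4 ?_
        refine le_of_sq_le_sq ?_ hR0
        rw [hR2]
        refine (hr2 u hu0 huT).trans ?_
        have : T - u ≤ T - s := by linarith [hu.1]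
        gcongr) (convex_Icc s t) (x := s) (y := t) ⟨le_rfl, hst⟩ ⟨hst, le_rfl⟩
    rw [Real.norm_of_nonneg (by linarith : (0:ℝ) ≤ t - s), Real.norm_eq_abs, hR2] at h1
    have h2 : |LM (γ s) a b| ≤ |LM (γ t) a b| + |LM (γ t) a b - LM (γ s) a b| := by
      have := abs_sub_abs_le_abs_sub (LM (γ s) a b) (LM (γ t) a b)
      rw [abs_sub_comm (LM (γ s) a b)] at this
      linarith
    have h3 : 4 * m c * (D * (T - s)) / (X0 / 2) ^ 3 * (t - s) ≤
        4 * m c * (D * (T - s)) / (X0 / 2) ^ 3 * (T - s) := by gcongr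
    linarith
  refine le_of_forall_pos_le_add fun ε hε => ?_
  obtain ⟨t, h1, h2, h3, h4⟩ := hcl (ε ^ 2 / κ) (by positivity) s hs
  have h5 := hLb t h1 h3
  have h6 : |LM (γ t) a b| ≤ ε := by
    obtain ⟨-, -, -, k2⟩ := htt t h2 h3
    have e1 : |LM (γ t) a b| ≤ ‖(γ t).1 a - (γ t).1 b‖ * ‖(γ t).2 a - (γ t).2 b‖ := by
      unfold LM
      refine (Complex.abs_im_le_norm _).trans ?_
      rw [norm_mul, Complex.norm_conj, norm_sub_rev ((γ t).1 b), norm_sub_rev ((γ t).2 b)]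
    refine e1.trans ?_
    refine le_of_sq_le_sq ?_ hε.le
    calc (‖(γ t).1 a - (γ t).1 b‖ * ‖(γ t).2 a - (γ t).2 b‖) ^ 2 =
          ‖(γ t).1 a - (γ t).1 b‖ * (‖(γ t).2 a - (γ t).2 b‖ ^ 2 * ‖(γ t).1 a - (γ t).1 b‖) := by ring
      _ ≤ ε ^ 2 / κ * κ := by gcongr
      _ = ε ^ 2 := by field_simp
  linarith

end Pool.Agent.H239.COL
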