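import Pool.Agent.H239.COL.Ae
import Pool.Agent.H239.PBS.Main

set_option autoImplicit false

/-! Consequences in the form of the hand-in. -/

namespace Pool.Agent.H239.COL

open Set Filter Topology MeasureTheory Pool.Agent.W821.TB Pool.Agent.Q205.Liou
open Pool.Agent.Q85.UB (prel LM)
open Pool.Agent.H239.PBS

/-- the third body escapes -/
theorem esc_tendsto (m : Fin 3 → ℝ) (hm : ∀ i, 0 < m i) (a b c : Fin 3) (hab : a ≠ b) (hca : c ≠ a)
    (hcb : c ≠ b) (σ P X0 : ℝ) (hP : 0 < P) (y : ℝ → Ph 3)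
    (h : ∀ t, 0 ≤ t → X0 ^ 2 + 2 * P * t ≤ ‖prel m (y (σ * t)).1 a b c‖ ^ 2 ∧
      20 * ‖(y (σ * t)).1 a - (y (σ * t)).1 b‖ ≤ ‖prel m (y (σ * t)).1 a b c‖) (i : Fin 3) (hi : i ≠ c) :
    Tendsto (fun t => ‖(y (σ * t)).1 c - (y (σ * t)).1 i‖) atTop atTop := by
  have h1 : Tendsto (fun t : ℝ => Real.sqrt (2 * P * t) / 2) atTop atTop := by
    have h2 : Tendsto (fun t : ℝ => 2 * P * t) atTop atTop := tendsto_id.const_mul_atTop (by positivity)
    exact (Real.tendsto_sqrt_atTop.comp h2).atTop_div_const (by norm_num)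
  refine tendsto_atTop_mono' _ ?_ h1
  filter_upwards [eventually_ge_atTop (0:ℝ)] with t ht
  obtain ⟨k1, k2⟩ := h t ht
  obtain ⟨k3, k4⟩ := farC m hm (y (σ * t)).1 a b c _ le_rfl k2
  have k5 : Real.sqrt (2 * P * t) ≤ ‖prel m (y (σ * t)).1 a b c‖ := by
    rw [Real.sqrt_le_left (norm_nonneg _)]
    have := sq_nonneg X0
    linarith
  have hi' := Pool.Agent.Q130.NX.fin3 a b c hab hca hcb i
  rcases hi' with rfl | rfl | rfl
  · linarith
  · linarith
  · exact absurd rfl hi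

/-- almost all states are dense -/
theorem dense_ae (m : Fin 3 → ℝ) (P : Ph 3 → Prop) (h : AlmostEvery m P) (W : Set (Ph 3)) (hW : IsOpen W)
    (z : Ph 3) (hz : z ∈ W) (hzc : IsCom m z) : ∃ w ∈ W, IsCom m w ∧ P w := by
  obtain ⟨d, hd⟩ : ∃ d, d = Module.finrank ℝ (com m) := ⟨_, rfl⟩
  let L : (Fin d → ℝ) ≃L[ℝ] com m := ContinuousLinearEquiv.ofFinrankEq (by simp [hd])
  have he : IsCoord m (fun s => (L s : Ph 3)) := by
    refine ⟨⟨fun x y => by simp, fun c x => by simp⟩, fun x y hxy => L.injective (Subtype.ext hxy), fun z => ?_⟩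
    constructor
    · rintro ⟨s, rfl⟩
      exact (L s).2
    · intro hz
      exact ⟨L.symm ⟨z, hz⟩, by simp⟩
  have h1 := h d _ he
  have h2 : Dense {s | P (L s : Ph 3)} := Measure.dense_of_ae h1
  have hO : IsOpen {s : Fin d → ℝ | (L s : Ph 3) ∈ W} :=
    hW.preimage (continuous_subtype_val.comp L.continuous)
  obtain ⟨s, hs1, hs2⟩ := h2.exists_mem_open hO ⟨L.symm ⟨z, hzc⟩, by simpa using hz⟩
  exact ⟨L s, hs2, (L s).2, hs1⟩

end Pool.Agent.H239.COL
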