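import Pool.Graph.R_pool_sql_team_seeded_2aa45f1a.Q205.Liou.Comp

set_option autoImplicit false

namespace Pool.Agent.H239.COL

open Set MeasureTheory Filter Topology Pool.Agent.Q205.Liou

section

variable {E : Type} [NormedAddCommGroup E] [NormedSpace ℝ E] [FiniteDimensional ℝ E]

/-- `y` solves the equation on `(a, t)` and continues `y0` -/
structure MS (f : E → E) (Ω : Set E) (a : ℝ) (y0 : ℝ → E) (t : ℝ) (y : ℝ → E) : Prop where
  sol : ∀ s, a < s → s < t → y s ∈ Ω ∧ HasDerivAt y (f (y s)) s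
  ini : ∀ s, a < s → s ≤ 0 → y s = y0 s

theorem ms_uniq {f : E → E} {Ω : Set E} (hΩ : IsOpen Ω) (hf : ∀ z ∈ Ω, ContDiffAt ℝ 1 f z)
    {a : ℝ} (ha : a < 0) {y0 y1 y2 : ℝ → E} {t1 t2 : ℝ} (h1 : MS f Ω a y0 t1 y1)
    (h2 : MS f Ω a y0 t2 y2) (s : ℝ) (has : a < s) (hs1 : s < t1) (hs2 : s < t2) :
    y1 s = y2 s := by
  rcases le_or_gt s 0 with hs | hs
  · rw [h1.ini s has hs, h2.ini s has hs]
  have hsol1 : Sol f Ω (Icc 0 s) y1 := fun t ht =>
    ⟨(h1.sol t (by linarith [ht.1]) (by linarith [ht.2])).1,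
      (h1.sol t (by linarith [ht.1]) (by linarith [ht.2])).2.hasDerivWithinAt⟩
  have hsol2 : Sol f Ω (Icc 0 s) y2 := fun t ht =>
    ⟨(h2.sol t (by linarith [ht.1]) (by linarith [ht.2])).1,
      (h2.sol t (by linarith [ht.1]) (by linarith [ht.2])).2.hasDerivWithinAt⟩
  have hc1 : ContinuousOn y1 (Icc 0 s) := fun t ht => (hsol1 t ht).2.continuousWithinAt
  have hc2 : ContinuousOn y2 (Icc 0 s) := fun t ht => (hsol2 t ht).2.continuousWithinAt
  have hN : IsCompact (y1 '' Icc 0 s ∪ y2 '' Icc 0 s) :=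
    (isCompact_Icc.image_of_continuousOn hc1).union (isCompact_Icc.image_of_continuousOn hc2)
  have hNΩ : y1 '' Icc 0 s ∪ y2 '' Icc 0 s ⊆ Ω := by
    rintro w (⟨t, ht, rfl⟩ | ⟨t, ht, rfl⟩)
    · exact (hsol1 t ht).1
    · exact (hsol2 t ht).1
  obtain ⟨X, K, g, W, _, hK, hg, _, hNW, _, hXf⟩ := exists_cut hΩ hf hN hNΩ
  have hmem : s ∈ Icc (0 : ℝ) s := ⟨hs.le, le_refl s⟩
  have e1 := unique_in hK hg hXf hsol1
    (fun t ht => hNW (Or.inl (mem_image_of_mem _ ht))) s hmem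
  have e2 := unique_in hK hg hXf hsol2
    (fun t ht => hNW (Or.inr (mem_image_of_mem _ ht))) s hmem
  rw [e1, e2, h1.ini 0 ha (le_refl 0), h2.ini 0 ha (le_refl 0)]

theorem ms_glue {f : E → E} {Ω : Set E} (hΩ : IsOpen Ω) (hf : ∀ z ∈ Ω, ContDiffAt ℝ 1 f z)
    {a : ℝ} (ha : a < 0) (y0 : ℝ → E) : ∃ y : ℝ → E, ∀ (t : ℝ) (Y : ℝ → E), MS f Ω a y0 t Y →
      ∀ s, a < s → s < t → y s = Y s := by
  classical
  refine ⟨fun s => if h : ∃ p : ℝ × (ℝ → E), MS f Ω a y0 p.1 p.2 ∧ s < p.1 then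
    (Classical.choose h).2 s else y0 s, ?_⟩
  intro t Y hY s has hst
  have h : ∃ p : ℝ × (ℝ → E), MS f Ω a y0 p.1 p.2 ∧ s < p.1 := ⟨(t, Y), hY, hst⟩
  simp only
  rw [dif_pos h]
  obtain ⟨h1, h2⟩ := Classical.choose_spec h
  exact ms_uniq hΩ hf ha h1 hY s has h2 hst

omit [FiniteDimensional ℝ E] in
/-- the glued function is a solution -/
theorem ms_sol {f : E → E} {Ω : Set E} {a : ℝ} {y0 y : ℝ → E}
    (hy : ∀ (t : ℝ) (Y : ℝ → E), MS f Ω a y0 t Y → ∀ s, a < s → s < t → y s = Y s)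
    {t : ℝ} {Y : ℝ → E} (hY : MS f Ω a y0 t Y) (s : ℝ) (has : a < s) (hst : s < t) :
    y s ∈ Ω ∧ HasDerivAt y (f (y s)) s := by
  have h1 := hY.sol s has hst
  have h2 := hy t Y hY s has hst
  rw [h2]
  refine ⟨h1.1, h1.2.congr_of_eventuallyEq ?_⟩
  filter_upwards [Ioo_mem_nhds has hst] with u hu
  exact hy t Y hY u hu.1 hu.2

/-- extension past the endpoint -/
theorem ms_ext {f : E → E} {Ω : Set E} (hΩ : IsOpen Ω) (hf : ∀ z ∈ Ω, ContDiffAt ℝ 1 f z)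
    {a : ℝ} (ha : a < 0) {y0 y : ℝ → E} {T : ℝ} (hT : 0 < T) (hy : MS f Ω a y0 T y) {N : Set E}
    (hN : IsCompact N) (hNΩ : N ⊆ Ω) {s : ℝ} (hs0 : 0 ≤ s) (hsT : s < T)
    (hyN : ∀ t, s ≤ t → t < T → y t ∈ N) : ∃ δ : ℝ, 0 < δ ∧ ∃ y', MS f Ω a y0 (T + δ) y' := by
  classical
  obtain ⟨X, K, g, W, _, hK, hg, hWo, hNW, hWΩ, hXf⟩ := exists_cut hΩ hf hN hNΩ
  obtain ⟨G, hG⟩ : ∃ G : ℝ → E, G = fun t => g (t - s) (y s) := ⟨_, rfl⟩
  have hGd : ∀ t, HasDerivAt G (X (G t)) t := by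
    intro t
    have := (hg.deriv (y s) (t - s)).scomp t ((hasDerivAt_id t).sub_const s)
    rw [one_smul] at this
    rw [hG]
    exact this
  have hGc : Continuous G := continuous_iff_continuousAt.2 fun t => (hGd t).continuousAt
  have hyG : ∀ t, s ≤ t → t < T → y t = G t := by
    intro t hst htT
    have hsol : Sol f Ω (Icc s t) y := fun u hu =>
      ⟨(hy.sol u (by linarith [hu.1]) (by linarith [hu.2])).1,
        (hy.sol u (by linarith [hu.1]) (by linarith [hu.2])).2.hasDerivWithinAt⟩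
    have := unique_in hK hg hXf hsol (fun u hu => hNW (hyN u hu.1 (by linarith [hu.2]))) t
      ⟨hst, le_refl t⟩
    rw [hG]
    exact this
  have hGT : G T ∈ N := by
    have h1 : Tendsto G (𝓝[<] T) (𝓝 (G T)) := hGc.continuousAt.tendsto.mono_left nhdsWithin_le_nhds
    refine hN.isClosed.mem_of_tendsto h1 ?_
    filter_upwards [Ioo_mem_nhdsLT hsT] with u hu
    rw [← hyG u hu.1.le hu.2]
    exact hyN u hu.1.le hu.2
  have hWT : G ⁻¹' W ∈ 𝓝 T := hGc.continuousAt (hWo.mem_nhds (hNW hGT))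
  obtain ⟨δ, hδ, hδW⟩ := Metric.mem_nhds_iff.1 hWT
  refine ⟨δ, hδ, fun t => if t < T then y t else G t, ?_, ?_⟩
  · intro u hau huT
    rcases lt_or_ge u T with h | h
    · have h1 := hy.sol u hau h
      have e : (fun t => if t < T then y t else G t) =ᶠ[𝓝 u] y := by
        filter_upwards [Iio_mem_nhds h] with v hv
        exact if_pos hv
      have e0 : (if u < T then y u else G u) = y u := if_pos h
      rw [e0]
      exact ⟨h1.1, h1.2.congr_of_eventuallyEq e⟩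
    · have hGW : G u ∈ W := by
        apply hδW
        rw [Metric.mem_ball, Real.dist_eq, abs_of_nonneg (by linarith)]
        linarith
      have e : (fun t => if t < T then y t else G t) =ᶠ[𝓝 u] G := by
        filter_upwards [Ioi_mem_nhds (lt_of_lt_of_le hsT h)] with v hv
        by_cases hvT : v < T
        · rw [if_pos hvT]
          exact hyG v (le_of_lt hv) hvT
        · rw [if_neg hvT]
      have e0 : (if u < T then y u else G u) = G u := if_neg (not_lt.2 h)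
      rw [e0]
      refine ⟨hWΩ hGW, ?_⟩
      have h1 := hGd u
      rw [hXf _ hGW] at h1
      exact h1.congr_of_eventuallyEq e
  · intro u hau hu0
    have h : u < T := by linarith
    show (if u < T then y u else G u) = y0 u
    rw [if_pos h]
    exact hy.ini u hau hu0

end

/-- C3: maximal solutions, two-sided near the initial time -/
theorem maxsol {E : Type} [NormedAddCommGroup E] [NormedSpace ℝ E] [FiniteDimensional ℝ E]
    {f : E → E} {Ω : Set E} (hΩ : IsOpen Ω) (hf : ∀ z ∈ Ω, ContDiffAt ℝ 1 f z) (z : E)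
    (hz : z ∈ Ω) :
    (∃ η : ℝ, 0 < η ∧ ∃ y : ℝ → E, Sol f Ω (Ioi (-η)) y ∧ y 0 = z) ∨
    ∃ η : ℝ, 0 < η ∧ ∃ T : ℝ, 0 < T ∧ ∃ y : ℝ → E, Sol f Ω (Ioo (-η) T) y ∧ y 0 = z ∧
      ∀ N : Set E, IsCompact N → N ⊆ Ω → ∀ s, s < T → ∃ t, s ≤ t ∧ 0 ≤ t ∧ t < T ∧ y t ∉ N := by
  -- local existence
  obtain ⟨X, K, g, W, _, hK, hg, hWo, hNW, hWΩ, hXf⟩ := exists_cut hΩ hf
    (isCompact_singleton (x := z)) (singleton_subset_iff.2 hz)
  obtain ⟨y0, hy0⟩ : ∃ y0 : ℝ → E, y0 = fun t => g t z := ⟨_, rfl⟩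
  have hy0d : ∀ t, HasDerivAt y0 (X (y0 t)) t := by
    intro t
    rw [hy0]
    exact hg.deriv z t
  have hy0c : Continuous y0 := continuous_iff_continuousAt.2 fun t => (hy0d t).continuousAt
  have hy00 : y0 0 = z := by
    rw [hy0]
    exact hg.zero z
  have hW0 : y0 ⁻¹' W ∈ 𝓝 (0 : ℝ) := by
    apply hy0c.continuousAt
    rw [hy00]
    exact hWo.mem_nhds (hNW rfl)
  obtain ⟨η, hη, hηW⟩ := Metric.mem_nhds_iff.1 hW0
  have hbase : MS f Ω (-η) y0 η y0 := by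
    refine ⟨fun s h1 h2 => ?_, fun s _ _ => rfl⟩
    have hs : y0 s ∈ W := by
      apply hηW
      rw [Metric.mem_ball, Real.dist_eq, sub_zero, abs_lt]
      exact ⟨h1, h2⟩
    refine ⟨hWΩ hs, ?_⟩
    have := hy0d s
    rwa [hXf _ hs] at this
  have hηn : -η < 0 := by linarith
  obtain ⟨y, hy⟩ := ms_glue hΩ hf hηn y0
  have hyini : ∀ s, -η < s → s ≤ 0 → y s = y0 s := fun s h1 h2 =>
    hy η y0 hbase s h1 (by linarith)
  have hyz : y 0 = z := by rw [hyini 0 hηn (le_refl 0), hy00]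
  by_cases hbd : BddAbove {t : ℝ | ∃ Y, MS f Ω (-η) y0 t Y}
  · right
    obtain ⟨T, hTdef⟩ : ∃ T : ℝ, T = sSup {t : ℝ | ∃ Y, MS f Ω (-η) y0 t Y} := ⟨_, rfl⟩
    have hηT : η ≤ T := by
      rw [hTdef]
      exact le_csSup hbd ⟨y0, hbase⟩
    have hT : 0 < T := by linarith
    have hms : MS f Ω (-η) y0 T y := by
      refine ⟨fun s h1 h2 => ?_, hyini⟩
      rw [hTdef] at h2
      have hne : {t : ℝ | ∃ Y, MS f Ω (-η) y0 t Y}.Nonempty := ⟨η, y0, hbase⟩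
      obtain ⟨t, ⟨Y, hY⟩, hst⟩ := exists_lt_of_lt_csSup hne h2
      exact ms_sol hy hY s h1 hst
    refine ⟨η, hη, T, hT, y, fun t ht => ⟨(hms.sol t ht.1 ht.2).1,
      (hms.sol t ht.1 ht.2).2.hasDerivWithinAt⟩, hyz, ?_⟩
    intro N hN hNΩ s hs
    by_contra hcon
    push Not at hcon
    have hmax : max s 0 < T := max_lt hs hT
    obtain ⟨δ, hδ, y', hy'⟩ := ms_ext hΩ hf hηn hT hms hN hNΩ (le_max_right s 0) hmax
      (fun t h1 h2 => hcon t ((le_max_left s 0).trans h1) ((le_max_right s 0).trans h1) h2)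
    have : T + δ ≤ T := by
      conv_rhs => rw [hTdef]
      exact le_csSup hbd ⟨y', hy'⟩
    linarith
  · left
    refine ⟨η, hη, y, fun t ht => ?_, hyz⟩
    rw [not_bddAbove_iff] at hbd
    obtain ⟨t1, ⟨Y, hY⟩, ht1⟩ := hbd t
    have h1 := ms_sol hy hY t ht ht1
    exact ⟨h1.1, h1.2.hasDerivWithinAt⟩

end Pool.Agent.H239.COL
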