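import Pool.Graph.R_pool_sql_team_seeded_2aa45f1a.Q205.Liou.Comp
import Pool.Graph.R_pool_sql_team_seeded_2aa45f1a.Q205.Liou.Coord
import Pool.Graph.R_pool_sql_team_seeded_3997aac3.Q85.UB.Kick2

set_option autoImplicit false

namespace Pool.Agent.H239.COL

open Set MeasureTheory Filter Topology Pool.Agent.Q205.Liou Pool.Agent.W821.TB
open Pool.Agent.Q85.UB (prel)

/-- the area of a rectangle -/
theorem thin_rect (R d : ℝ) (hR : 0 ≤ R) (_hd : 0 ≤ d) :
    volume {w : ℂ | |w.re| ≤ R ∧ |w.im| ≤ d} = ENNReal.ofReal (4 * R * d) := by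
  have hm : MeasurableSet {w : ℂ | |w.re| ≤ R ∧ |w.im| ≤ d} := by
    apply IsClosed.measurableSet
    exact (isClosed_le (continuous_abs.comp Complex.continuous_re) continuous_const).inter
      (isClosed_le (continuous_abs.comp Complex.continuous_im) continuous_const)
  rw [← (Complex.volume_preserving_equiv_real_prod.symm).measure_preimage hm.nullMeasurableSet]
  have he : (Complex.measurableEquivRealProd.symm) ⁻¹' {w : ℂ | |w.re| ≤ R ∧ |w.im| ≤ d} =
      Set.Icc (-R) R ×ˢ Set.Icc (-d) d := by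
    ext a
    simp only [Set.mem_preimage, Set.mem_ofPred_eq, Complex.measurableEquivRealProd_symm_apply,
      Set.mem_prod, Set.mem_Icc, abs_le]
  rw [he, Measure.volume_eq_prod, Measure.prod_prod, Real.volume_Icc, Real.volume_Icc,
    ← ENNReal.ofReal_mul (by linarith)]
  congr 1
  ring

/-- the area of a strip in a disc -/
theorem thin_fibre (q : ℂ) (hq : q ≠ 0) (R δ : ℝ) (hR : 0 ≤ R) (hδ : 0 ≤ δ) :
    volume {v : ℂ | ‖v‖ ≤ R ∧ |((starRingEnd ℂ) q * v).im| ≤ δ} ≤
      ENNReal.ofReal (4 * R * (δ / ‖q‖)) := by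
  have hn : 0 < ‖q‖ := norm_pos_iff.2 hq
  have hnC : (‖q‖ : ℂ) ≠ 0 := by exact_mod_cast hn.ne'
  have hu : ‖q / (‖q‖ : ℂ)‖ = 1 := by
    rw [norm_div, Complex.norm_real, norm_norm, div_self hn.ne']
  let a : Circle := ⟨q / (‖q‖ : ℂ), mem_sphere_zero_iff_norm.2 hu⟩
  have ha : (a : ℂ) = q / (‖q‖ : ℂ) := rfl
  have hm : MeasurableSet {v : ℂ | ‖v‖ ≤ R ∧ |((starRingEnd ℂ) q * v).im| ≤ δ} := by
    apply IsClosed.measurableSet
    exact (isClosed_le continuous_norm continuous_const).inter
      (isClosed_le (continuous_abs.comp (Complex.continuous_im.comp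
        (continuous_const.mul continuous_id))) continuous_const)
  rw [← (rotation a).measurePreserving.measure_preimage hm.nullMeasurableSet]
  rw [← thin_rect R (δ / ‖q‖) hR (by positivity)]
  apply measure_mono
  intro w hw
  rw [Set.mem_preimage, rotation_apply] at hw
  obtain ⟨h1, h2⟩ := hw
  have h3 : ‖(a : ℂ) * w‖ = ‖w‖ := by rw [norm_mul, ha, hu, one_mul]
  rw [h3] at h1
  have h4 : (starRingEnd ℂ) q * ((a : ℂ) * w) = (‖q‖ : ℂ) * w := by
    rw [ha]
    have h5 : (starRingEnd ℂ) q * q = (‖q‖ : ℂ) ^ 2 := by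
      rw [mul_comm, Complex.mul_conj, Complex.normSq_eq_norm_sq]
      push_cast
      ring
    field_simp
    rw [h5]
  rw [h4, Complex.im_ofReal_mul] at h2
  exact ⟨(Complex.abs_re_le_norm w).trans h1, by
    rw [le_div_iff₀ hn]
    rw [abs_mul, abs_of_pos hn] at h2
    linarith⟩


/-- the bound for the area of the fibre -/
noncomputable def thinFb (c k r : ℝ) : ℝ := if r ≤ c then 4 * Real.sqrt (k / r) / r else 0

theorem thinFb_nonneg (c k r : ℝ) (hr : 0 ≤ r) : 0 ≤ thinFb c k r := by
  unfold thinFb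
  split_ifs
  · positivity
  · exact le_rfl

theorem thinFb_int (c k : ℝ) (hk : 0 ≤ k) : Integrable (fun q : ℂ => thinFb c k ‖q‖) volume := by
  have h0 := integrable_fun_norm_addHaar (E := ℂ) (F := ℝ) volume (f := thinFb c k)
  rw [h0]
  have h1 : IntegrableOn (fun x : ℝ => 4 * Real.sqrt k * x ^ (-(1 / 2) : ℝ)) (Set.Ioc 0 c) := by
    apply Integrable.const_mul
    exact (intervalIntegral.intervalIntegrable_rpow' (a := 0) (b := c) (by norm_num)).1
  have h2 : Integrable ((Set.Ioc 0 c).indicator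
      (fun x : ℝ => 4 * Real.sqrt k * x ^ (-(1 / 2) : ℝ))) :=
    (integrable_indicator_iff measurableSet_Ioc).2 h1
  refine IntegrableOn.congr_fun h2.integrableOn ?_ measurableSet_Ioi
  intro y hy
  have hy' : 0 < y := hy
  simp only [Complex.finrank_real_complex, smul_eq_mul]
  unfold thinFb
  by_cases hc : y ≤ c
  · have hm : y ∈ Set.Ioc 0 c := ⟨hy', hc⟩
    rw [if_pos hc, Set.indicator_of_mem hm]
    rw [Real.sqrt_div hk, Real.rpow_neg hy'.le, ← Real.sqrt_eq_rpow]
    have hs : 0 < Real.sqrt y := Real.sqrt_pos.2 hy'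
    field_simp
    norm_num
  · rw [if_neg hc, Set.indicator_of_notMem (fun h => hc h.2)]
    simp

/-- C1: pairs of planar vectors with a small determinant -/
theorem thin (c κ : ℝ) : ∃ C : ℝ, 0 ≤ C ∧ ∀ δ : ℝ, 0 ≤ δ →
    volume {p : ℂ × ℂ | ‖p.1‖ ≤ c ∧ ‖p.2‖ ^ 2 * ‖p.1‖ ≤ κ ∧
      |((starRingEnd ℂ) p.1 * p.2).im| ≤ δ} ≤ ENNReal.ofReal (C * δ) := by
  have hk : 0 ≤ max κ 0 := le_max_right _ _
  have hint := thinFb_int c (max κ 0) hk
  refine ⟨∫ q : ℂ, thinFb c (max κ 0) ‖q‖,
    integral_nonneg fun q => thinFb_nonneg _ _ _ (norm_nonneg q), ?_⟩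
  intro δ hδ
  set S : Set (ℂ × ℂ) := {p : ℂ × ℂ | ‖p.1‖ ≤ c ∧ ‖p.2‖ ^ 2 * ‖p.1‖ ≤ κ ∧
      |((starRingEnd ℂ) p.1 * p.2).im| ≤ δ} with hS
  have hmeas : MeasurableSet S := by
    apply IsClosed.measurableSet
    refine (isClosed_le (continuous_norm.comp continuous_fst) continuous_const).inter
      ((isClosed_le (((continuous_norm.comp continuous_snd).pow 2).mul
        (continuous_norm.comp continuous_fst)) continuous_const).inter
        (isClosed_le (continuous_abs.comp (Complex.continuous_im.comp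
          ((Complex.continuous_conj.comp continuous_fst).mul continuous_snd))) continuous_const))
  rw [Measure.volume_eq_prod, Measure.prod_apply hmeas]
  have hne : ∀ᵐ q : ℂ, q ≠ 0 := by
    rw [ae_iff]
    simp
  calc ∫⁻ q : ℂ, volume (Prod.mk q ⁻¹' S) ≤
      ∫⁻ q : ℂ, ENNReal.ofReal (thinFb c (max κ 0) ‖q‖ * δ) := by
        apply lintegral_mono_ae
        filter_upwards [hne] with q hq
        have hn : 0 < ‖q‖ := norm_pos_iff.2 hq
        by_cases hc : ‖q‖ ≤ c
        · calc volume (Prod.mk q ⁻¹' S) ≤ volume {v : ℂ | ‖v‖ ≤ Real.sqrt (max κ 0 / ‖q‖) ∧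
                |((starRingEnd ℂ) q * v).im| ≤ δ} := by
                apply measure_mono
                intro v hv
                obtain ⟨_, h2, h3⟩ := hv
                refine ⟨?_, h3⟩
                apply Real.le_sqrt_of_sq_le
                rw [le_div_iff₀ hn]
                exact le_trans h2 (le_max_left _ _)
            _ ≤ ENNReal.ofReal (4 * Real.sqrt (max κ 0 / ‖q‖) * (δ / ‖q‖)) :=
                thin_fibre q hq _ δ (Real.sqrt_nonneg _) hδ
            _ = ENNReal.ofReal (thinFb c (max κ 0) ‖q‖ * δ) := by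
                congr 1
                unfold thinFb
                rw [if_pos hc]
                ring
        · have he : Prod.mk q ⁻¹' S = ∅ := by
            ext v
            simp only [Set.mem_preimage, hS, Set.mem_ofPred_eq, Set.mem_empty_iff_false,
              iff_false, not_and]
            intro h
            exact absurd h hc
          rw [he, measure_empty]
          exact zero_le
    _ = ENNReal.ofReal ((∫ q : ℂ, thinFb c (max κ 0) ‖q‖) * δ) := by
        rw [← integral_mul_const, ← ofReal_integral_eq_lintegral_ofReal (hint.mul_const δ)]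
        exact Filter.Eventually.of_forall fun q =>
          mul_nonneg (thinFb_nonneg _ _ _ (norm_nonneg q)) hδ

end Pool.Agent.H239.COL
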