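import Pool.Graph.R_pool_sql_team_seeded_2aa45f1a.Q205.Liou.Comp

set_option autoImplicit false

namespace Pool.Agent.H239.COL

open Set MeasureTheory Filter Topology Pool.Agent.Q205.Liou Pool.Agent.GR.Flow

/-- C2: Liouville's theorem for the solutions which exist up to the time `t` -/
theorem window {E : Type} [NormedAddCommGroup E] [NormedSpace ℝ E] [FiniteDimensional ℝ E]
    [MeasurableSpace E] [BorelSpace E] {f : E → E} {Ω : Set E} (hΩ : IsOpen Ω)
    (hf : ∀ z ∈ Ω, ContDiffAt ℝ 1 f z)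
    (htr : ∀ z ∈ Ω, LinearMap.trace ℝ E (fderiv ℝ f z : E →ₗ[ℝ] E) = 0)
    (μ : Measure E) [μ.IsAddHaarMeasure] (A D : Set E) (t : ℝ) (ht : 0 ≤ t)
    (h : ∀ z ∈ A, ∃ y : ℝ → E, Sol f Ω (Icc 0 t) y ∧ y 0 = z ∧ y t ∈ D) : μ A ≤ μ D := by
  classical
  have : ProperSpace E := FiniteDimensional.proper ℝ E
  obtain ⟨N, hNc, hNΩ, hNM⟩ := exists_exhaustion hΩ
  set M : ℕ → Set E := fun k => ⋃ j ∈ Finset.range (k + 1), N j with hM
  have hMc : ∀ k, IsCompact (M k) := fun k => Finset.isCompact_biUnion _ fun j _ => hNc j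
  have hMΩ : ∀ k, M k ⊆ Ω := fun k => iUnion₂_subset fun j _ => hNΩ j
  have hNMk : ∀ k, N k ⊆ M k := fun k =>
    subset_iUnion₂_of_subset k (Finset.mem_range.2 (Nat.lt_succ_self k)) Subset.rfl
  have hMm : ∀ k l, k ≤ l → M k ⊆ M l := by
    intro k l hkl
    refine iUnion₂_subset fun j hj => ?_
    have hj' := Finset.mem_range.1 hj
    exact subset_iUnion₂_of_subset j (Finset.mem_range.2 (by omega)) Subset.rfl
  have hcut := fun k => exists_cut hΩ hf (hMc k) (hMΩ k)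
  choose X L g W hX hL hg hW hMW hWΩ hXf using hcut
  have hgc : ∀ k s, Continuous (g k s) := fun k s => (diff_flow (hX k) (hL k) (hg k) s).continuous
  set D' := toMeasurable μ D with hD'
  have hD'm : MeasurableSet D' := measurableSet_toMeasurable μ D
  set Ak : ℕ → Set E := fun k => {z | (∀ s ∈ Icc 0 t, g k s z ∈ M k) ∧ g k t z ∈ D'} with hAk
  have hin : ∀ (k : ℕ) (z : E) (y : ℝ → E), Sol f Ω (Icc 0 t) y → y 0 = z →
      (∀ s ∈ Icc 0 t, y s ∈ M k) → y t ∈ D' → z ∈ Ak k := by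
    intro k z y hy hy0 hyM hyD
    have h1 : ∀ s ∈ Icc 0 t, y s = g k s z := by
      intro s hs
      have h2 := unique_in (W := W k) (hL k) (hg k) (hXf k) hy (fun s hs => hMW k (hyM s hs)) s hs
      rw [sub_zero, hy0] at h2
      exact h2
    refine ⟨fun s hs => ?_, ?_⟩
    · rw [← h1 s hs]
      exact hyM s hs
    · rw [← h1 t ⟨ht, le_rfl⟩]
      exact hyD
  have hAm : ∀ k, MeasurableSet (Ak k) := by
    intro k
    have h1 : IsClosed {z | ∀ s ∈ Icc 0 t, g k s z ∈ M k} := by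
      have e : {z | ∀ s ∈ Icc 0 t, g k s z ∈ M k} = ⋂ s : ℝ, ⋂ _ : s ∈ Icc 0 t, g k s ⁻¹' M k := by
        ext z
        simp
      rw [e]
      exact isClosed_iInter fun s => isClosed_iInter fun _ => (hMc k).isClosed.preimage (hgc k s)
    exact h1.measurableSet.inter ((hgc k t).measurable hD'm)
  have hmono : Monotone Ak := by
    intro k l hkl z hz
    refine hin l z (fun s => g k s z) (fun s hs => ?_) ((hg k).zero z)
      (fun s hs => hMm k l hkl (hz.1 s hs)) hz.2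
    refine ⟨hMΩ k (hz.1 s hs), ?_⟩
    show HasDerivWithinAt (fun s => g k s z) (f (g k s z)) (Icc 0 t) s
    rw [← hXf k _ (hMW k (hz.1 s hs))]
    exact ((hg k).deriv z s).hasDerivWithinAt
  have hcov : A ⊆ ⋃ k, Ak k := by
    intro z hz
    obtain ⟨y, hy, hy0, hyD⟩ := h z hz
    have hyc : ContinuousOn y (Icc 0 t) := fun s hs => (hy s hs).2.continuousWithinAt
    obtain ⟨k, hk⟩ := hNM (y '' Icc 0 t) (isCompact_Icc.image_of_continuousOn hyc) (by
      rintro _ ⟨s, hs, rfl⟩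
      exact (hy s hs).1)
    exact mem_iUnion.2 ⟨k, hin k z y hy hy0 (fun s hs => hNMk k (hk ⟨s, hs, rfl⟩))
      (subset_toMeasurable μ D hyD)⟩
  have hle : ∀ k, μ (Ak k) ≤ μ D := by
    intro k
    have h1 : μ (g k t '' Ak k) = μ (Ak k) := by
      refine measure_image (hX k) (hL k) (hg k) μ (hAm k) fun p hp s hs => ?_
      rw [uIcc_of_le ht] at hs
      exact trace_cut (hW k) (hWΩ k) (hXf k) htr (hMW k (hp.1 s hs))
    rw [← h1, ← measure_toMeasurable D]
    apply measure_mono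
    rintro _ ⟨z, hz, rfl⟩
    exact hz.2
  calc μ A ≤ μ (⋃ k, Ak k) := measure_mono hcov
    _ = ⨆ k, μ (Ak k) := hmono.measure_iUnion
    _ ≤ μ D := iSup_le hle

end Pool.Agent.H239.COL
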