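import Pool.Agent.H239.COL.Dyn3
import Pool.Agent.H239.COL.Thin
import Pool.Agent.H239.COL.MaxSol
import Pool.Agent.H239.COL.Coords
import Pool.Agent.H239.COL.Window

set_option autoImplicit false

/-! Almost no state with an escaping third body leads to a collision. -/

namespace Pool.Agent.H239.COL

open Set Filter Topology MeasureTheory Pool.Agent.W821.TB Pool.Agent.Q205.Liou
open Pool.Agent.Q85.UB (prel LM)
open Pool.Agent.H239.PBS

/-- `z` leads to a collision at the time `T` -/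
def Ends (m : Fin 3 → ℝ) (z : com m) (T : ℝ) : Prop :=
  ∃ η : ℝ, 0 < η ∧ ∃ y : ℝ → com m, Sol (fld m) (free m) (Ioo (-η) T) y ∧ y 0 = z ∧
    ∀ N : Set (com m), IsCompact N → N ⊆ free m → ∀ s, s < T → ∃ t, s ≤ t ∧ 0 ≤ t ∧ t < T ∧ y t ∉ N

/-- the collisions up to the time `L`, the data being bounded by `L` -/
def BB (m : Fin 3 → ℝ) (M : ℝ) (a b c : Fin 3) (L : ℝ) (z : com m) (T : ℝ) : Prop :=
  (z : Ph 3) ∈ UU m M a b c ∧ 0 < inner ℝ (prel m (z : Ph 3).1 a b c) (prel m (z : Ph 3).2 a b c) ∧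
    ‖prel m (z : Ph 3).1 a b c‖ ≤ L ∧ ‖prel m (z : Ph 3).2 a b c‖ ≤ L ∧
    1 ≤ L * (-energy m (z : Ph 3)) ∧ 1 ≤ L * ‖prel m (z : Ph 3).1 a b c‖ ∧ 0 < T ∧ T ≤ L ∧ Ends m z T

/-- one window -/
theorem oneW (m : Fin 3 → ℝ) (hm : ∀ i, 0 < m i) (M : ℝ) (hM : ∑ i, m i = M)
    (a b c : Fin 3) (hab : a ≠ b) (hca : c ≠ a) (hcb : c ≠ b) (μ : Measure (com m)) [μ.IsAddHaarMeasure]
    (L : ℝ) (hL : 0 < L) : ∃ C : ℝ, 0 ≤ C ∧ ∀ s τ : ℝ, 0 ≤ s → 0 ≤ τ →
      μ {z : com m | ∃ T, BB m M a b c L z T ∧ s < T ∧ T ≤ s + τ} ≤ ENNReal.ofReal (C * τ ^ 2) := by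
  have hma := hm a
  have hmb := hm b
  have hmc := hm c
  have hM0 : 0 < M := by rw [← hM]; exact Finset.sum_pos (fun i _ => hm i) ⟨0, Finset.mem_univ _⟩
  obtain ⟨c0, hc0⟩ : ∃ c0, c0 = 2 * (m a * m b) * L := ⟨_, rfl⟩
  have hc0p : 0 < c0 := by rw [hc0]; positivity
  obtain ⟨κ, hκ⟩ : ∃ κ, κ = 2 * (m a + m b) := ⟨_, rfl⟩
  have hκp : 0 < κ := by rw [hκ]; positivity
  obtain ⟨D, hD⟩ : ∃ D, D = Real.sqrt (4 * c0 * κ) := ⟨_, rfl⟩
  have hD0 : 0 ≤ D := by rw [hD]; exact Real.sqrt_nonneg _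
  have hD2 : D ^ 2 = 4 * c0 * κ := by rw [hD, Real.sq_sqrt (by positivity)]
  obtain ⟨Rv, hRv⟩ : ∃ Rv, Rv = L + 2 * M * L ^ 2 * L := ⟨_, rfl⟩
  have hRv0 : 0 ≤ Rv := by rw [hRv]; positivity
  obtain ⟨R, hR⟩ : ∃ R, R = Rv + (L + Rv * L) := ⟨_, rfl⟩
  obtain ⟨K, hK⟩ : ∃ K, K = 32 * m c * D * L ^ 3 := ⟨_, rfl⟩
  have hK0 : 0 ≤ K := by rw [hK]; positivity
  obtain ⟨C1, hC1, hthin⟩ := thin c0 κ
  obtain ⟨C2, hC2, hco⟩ := coordMeas m hm a b c hab hca hcb μ R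
  refine ⟨C2 * (C1 * K), by positivity, fun s τ hs hτ => ?_⟩
  obtain ⟨S, hS⟩ : ∃ S : Set (ℂ × ℂ), S = {p : ℂ × ℂ | ‖p.1‖ ≤ c0 ∧ ‖p.2‖ ^ 2 * ‖p.1‖ ≤ κ ∧
      |((starRingEnd ℂ) p.1 * p.2).im| ≤ K * τ ^ 2} := ⟨_, rfl⟩
  have h1 := hthin (K * τ ^ 2) (by positivity)
  have h2 := hco S
  rw [← hS] at h1
  have h3 := window (isOpen_free m) (fun z hz => contDiffAt_fld hz) (fun z hz => trace_fld hz) μ
    {z : com m | ∃ T, BB m M a b c L z T ∧ s < T ∧ T ≤ s + τ}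
    {z : com m | ((z : Ph 3).1 a - (z : Ph 3).1 b, (z : Ph 3).2 a - (z : Ph 3).2 b) ∈ S ∧
        ‖prel m (z : Ph 3).1 a b c‖ ≤ R ∧ ‖prel m (z : Ph 3).2 a b c‖ ≤ R} s hs (by
    rintro z ⟨T, ⟨hU, hP, b1, b2, b3, b4, hT, hTL, η, hη, y, hy, hy0, hex⟩, hsT, hTs⟩
    refine ⟨y, hy.mono fun t ht => ⟨by linarith [ht.1], by linarith [ht.2]⟩, hy0, ?_⟩
    rw [← hy0] at hU hP b1 b2 b3 b4
    obtain ⟨γ, hγ⟩ : ∃ γ : ℝ → Ph 3, γ = fun t => (y t : Ph 3) := ⟨_, rfl⟩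
    have hγt : ∀ t, (y t : Ph 3) = γ t := fun t => by rw [hγ]
    have hsol : ∀ t ∈ Ioo (-η) T, γ t ∈ phaseSpace m ∧ HasDerivAt γ ((γ t).2, acc m (γ t).1) t := by
      intro t ht
      have h := sol_up hy t ht
      rw [hγ]
      exact ⟨h.1, h.2.hasDerivAt (Ioo_mem_nhds ht.1 ht.2)⟩
    have hE' : 0 < -energy m (y 0 : Ph 3) := by linarith [hU.2.1]
    have hX0p : 0 < ‖prel m (y 0 : Ph 3).1 a b c‖ := by
      have := norm_nonneg ((y 0 : Ph 3).1 a - (y 0 : Ph 3).1 b)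
      have := hU.2.2.1
      linarith
    have hcc : 2 * (m a * m b) / (-energy m (y 0 : Ph 3)) ≤ c0 := by
      rw [hc0, div_le_iff₀ hE']
      calc 2 * (m a * m b) = 2 * (m a * m b) * 1 := by ring
        _ ≤ 2 * (m a * m b) * (L * (-energy m (y 0 : Ph 3))) := by gcongr
        _ = _ := by ring
    have hang := angI m hm M hM hη hT hy hex a b c hab hca hcb hU hP D hD0 (by
      rw [hD2, ← hκ]
      gcongr) s hs hsT
    have htt := tightI m hm M hM hη hT hsol a b c hab hca hcb (by rw [← hγt]; exact hU)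
      (by rw [← hγt]; exact hP) s hs hsT
    have hou := outerI m hm M hM hη hT hsol a b c hab hca hcb (by rw [← hγt]; exact hU)
      (by rw [← hγt]; exact hP) s hs hsT
    simp only [← hγt] at htt hou
    obtain ⟨-, -, k1, k2⟩ := htt
    obtain ⟨k3, k4⟩ := hou
    obtain ⟨X0, hX0⟩ : ∃ X0, X0 = ‖prel m (y 0 : Ph 3).1 a b c‖ := ⟨_, rfl⟩
    rw [← hX0] at hX0p hang k3 k4 b1 b4
    have hXinv : 1 / X0 ≤ L := by rw [div_le_iff₀ hX0p]; exact b4
    have hv1 : ‖prel m (y 0 : Ph 3).2 a b c‖ + 2 * M / X0 ^ 2 * T ≤ Rv := by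
      have e1 : 2 * M / X0 ^ 2 = 2 * M * (1 / X0) ^ 2 := by field_simp
      rw [hRv, e1]
      gcongr
    refine ⟨?_, ?_, ?_⟩
    · rw [hS]
      refine ⟨k1.trans hcc, by rw [hκ]; exact k2, ?_⟩
      have e0 : ((starRingEnd ℂ) ((y s : Ph 3).1 a - (y s : Ph 3).1 b) *
          ((y s : Ph 3).2 a - (y s : Ph 3).2 b)).im = LM (y s : Ph 3) a b := by
        unfold LM
        congr 1
        rw [← neg_sub ((y s : Ph 3).1 b), ← neg_sub ((y s : Ph 3).2 b), map_neg]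
        ring
      show |((starRingEnd ℂ) ((y s : Ph 3).1 a - (y s : Ph 3).1 b) *
          ((y s : Ph 3).2 a - (y s : Ph 3).2 b)).im| ≤ _
      rw [e0]
      refine hang.trans ?_
      have e1 : 4 * m c * (D * (T - s)) / (X0 / 2) ^ 3 * (T - s) =
          32 * m c * D * (1 / X0) ^ 3 * (T - s) ^ 2 := by field_simp; ring
      have e2 : 0 ≤ T - s := by linarith
      have e3 : T - s ≤ τ := by linarith
      rw [e1, hK]
      gcongr
    · rw [hR]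
      have : (‖prel m (y 0 : Ph 3).2 a b c‖ + 2 * M / X0 ^ 2 * T) * T ≤ Rv * L := by gcongr
      linarith
    · rw [hR]
      have : 0 ≤ Rv * L := by positivity
      linarith)
  refine h3.trans (h2.trans ?_)
  rw [mul_assoc, ENNReal.ofReal_mul hC2]
  refine mul_le_mul' le_rfl ?_
  rw [mul_assoc]
  exact h1

/-- the collisions up to the time `L` -/
theorem nullL (m : Fin 3 → ℝ) (hm : ∀ i, 0 < m i) (M : ℝ) (hM : ∑ i, m i = M)
    (a b c : Fin 3) (hab : a ≠ b) (hca : c ≠ a) (hcb : c ≠ b) (μ : Measure (com m)) [μ.IsAddHaarMeasure]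
    (L : ℝ) (hL : 0 < L) : μ {z : com m | ∃ T, BB m M a b c L z T} = 0 := by
  obtain ⟨C, hC, h⟩ := oneW m hm M hM a b c hab hca hcb μ L hL
  have key : ∀ N : ℕ, μ {z : com m | ∃ T, BB m M a b c L z T} ≤
      ENNReal.ofReal (C * L ^ 2 * (1 / ((N : ℝ) + 1))) := by
    intro N
    obtain ⟨τ, hτ⟩ : ∃ τ, τ = L / ((N : ℝ) + 1) := ⟨_, rfl⟩
    have hτ0 : 0 < τ := by rw [hτ]; positivity
    have hsub : {z : com m | ∃ T, BB m M a b c L z T} ⊆ ⋃ j ∈ Finset.range (N + 1),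
        {z : com m | ∃ T, BB m M a b c L z T ∧ (j : ℝ) * τ < T ∧ T ≤ (j : ℝ) * τ + τ} := by
      rintro z ⟨T, hz⟩
      have hT : 0 < T := hz.2.2.2.2.2.2.1
      have hTL : T ≤ L := hz.2.2.2.2.2.2.2.1
      have h1 : 0 < ⌈T / τ⌉₊ := Nat.ceil_pos.2 (by positivity)
      have h2 : ⌈T / τ⌉₊ ≤ N + 1 := by
        refine Nat.ceil_le.2 ?_
        rw [div_le_iff₀ hτ0, hτ]
        push_cast
        have : ((N : ℝ) + 1) * (L / ((N : ℝ) + 1)) = L := by field_simp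
        rw [this]
        exact hTL
      obtain ⟨j, hj⟩ : ∃ j, ⌈T / τ⌉₊ = j + 1 := ⟨_, (Nat.succ_pred_eq_of_pos h1).symm⟩
      refine mem_biUnion (x := j) ?_ ⟨T, hz, ?_, ?_⟩
      · show j ∈ Finset.range (N + 1)
        rw [Finset.mem_range]; omega
      · have : (j : ℝ) < T / τ := Nat.lt_ceil.1 (by omega)
        rwa [lt_div_iff₀ hτ0] at this
      · have h3 := Nat.le_ceil (T / τ)
        rw [hj] at h3
        push_cast at h3
        rw [div_le_iff₀ hτ0] at h3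
        linarith
    refine (measure_mono hsub).trans ((measure_biUnion_finset_le _ _).trans ?_)
    calc ∑ j ∈ Finset.range (N + 1), μ {z : com m | ∃ T, BB m M a b c L z T ∧ (j : ℝ) * τ < T ∧
          T ≤ (j : ℝ) * τ + τ} ≤ ∑ _j ∈ Finset.range (N + 1), ENNReal.ofReal (C * τ ^ 2) := by
          refine Finset.sum_le_sum fun j _ => h _ _ (by positivity) hτ0.le
      _ = ENNReal.ofReal (C * L ^ 2 * (1 / ((N : ℝ) + 1))) := by
          rw [Finset.sum_const, Finset.card_range, ← ENNReal.ofReal_nsmul]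
          congr 1
          rw [hτ, nsmul_eq_mul]
          push_cast
          field_simp
  refine le_antisymm ?_ (by simp)
  have hlim : Tendsto (fun N : ℕ => ENNReal.ofReal (C * L ^ 2 * (1 / ((N : ℝ) + 1)))) atTop (𝓝 0) := by
    have h1 : Tendsto (fun N : ℕ => C * L ^ 2 * (1 / ((N : ℝ) + 1))) atTop (𝓝 (C * L ^ 2 * 0)) :=
      tendsto_one_div_add_atTop_nhds_zero_nat.const_mul _
    rw [mul_zero] at h1
    have h2 := ENNReal.tendsto_ofReal h1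
    rwa [ENNReal.ofReal_zero] at h2
  exact ge_of_tendsto' hlim key

/-- **almost every state with an escaping third body starts a solution for all positive times** -/
theorem aeFwd (m : Fin 3 → ℝ) (hm : ∀ i, 0 < m i) (M : ℝ) (hM : ∑ i, m i = M)
    (a b c : Fin 3) (hab : a ≠ b) (hca : c ≠ a) (hcb : c ≠ b) (μ : Measure (com m)) [μ.IsAddHaarMeasure] :
    ∀ᵐ (z : com m) ∂μ, (z : Ph 3) ∈ UU m M a b c →
      0 < inner ℝ (prel m (z : Ph 3).1 a b c) (prel m (z : Ph 3).2 a b c) →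
      ∃ η : ℝ, 0 < η ∧ ∃ y : ℝ → com m, Sol (fld m) (free m) (Ioi (-η)) y ∧ y 0 = z := by
  have h1 : ∀ᵐ (z : com m) ∂μ, ∀ n : ℕ, ¬ ∃ T, BB m M a b c ((n : ℝ) + 1) z T := by
    rw [ae_all_iff]
    intro n
    have h := nullL m hm M hM a b c hab hca hcb μ ((n : ℝ) + 1) (by positivity)
    rw [ae_iff]
    simpa using h
  filter_upwards [h1] with z hz hU hP
  by_contra hcon
  have hfree : z ∈ free m := fun i j hij => hU.1 i j hij
  rcases maxsol (isOpen_free m) (fun z hz => contDiffAt_fld hz) z hfree with h | ⟨η, hη, T, hT, y, hy, hy0, hex⟩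
  · exact hcon h
  · have hE' : 0 < -energy m (z : Ph 3) := by linarith [hU.2.1]
    have hX0p : 0 < ‖prel m (z : Ph 3).1 a b c‖ := by
      have := norm_nonneg ((z : Ph 3).1 a - (z : Ph 3).1 b)
      have := hU.2.2.1
      linarith
    obtain ⟨n, hn⟩ := exists_nat_ge (‖prel m (z : Ph 3).1 a b c‖ + ‖prel m (z : Ph 3).2 a b c‖ +
      1 / (-energy m (z : Ph 3)) + 1 / ‖prel m (z : Ph 3).1 a b c‖ + T)
    have p1 : 0 < 1 / (-energy m (z : Ph 3)) := by positivity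
    have p2 : 0 < 1 / ‖prel m (z : Ph 3).1 a b c‖ := by positivity
    have p3 := norm_nonneg (prel m (z : Ph 3).2 a b c)
    refine hz n ⟨T, hU, hP, by linarith, by linarith, ?_, ?_, hT, by linarith, η, hη, y, hy, hy0, hex⟩
    · have h3 : 1 / (-energy m (z : Ph 3)) ≤ (n : ℝ) + 1 := by linarith
      rwa [div_le_iff₀ hE'] at h3
    · have h3 : 1 / ‖prel m (z : Ph 3).1 a b c‖ ≤ (n : ℝ) + 1 := by linarith
      rwa [div_le_iff₀ hX0p] at h3

end Pool.Agent.H239.COL
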